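import Pool.Agent.helper50.MA.SpecI

/-!
# ma, module I3: coordinate changes of the standard charts of the blow-up of the plane
-/

set_option autoImplicit false

open MeasureTheory Set Filter Topology Complex Matrix
open scoped ContDiff Real Manifold

namespace DMAProblem

noncomputable section

/-- the sum of the squared norms -/
def I3_N {n : ℕ} (v : Fin n → ℂ) : ℝ := ∑ k, ‖v k‖ ^ 2

lemma I3_diag {n : ℕ} (v : Fin n → ℂ) (hv : I3_N v ≠ 0) (i : Fin n) :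
    proj v i i ≠ 0 ↔ v i ≠ 0 := by
  have hN : ((I3_N v : ℝ) : ℂ) ≠ 0 := by exact_mod_cast hv
  have e : proj v i i = v i * (starRingEnd ℂ) (v i) / ((I3_N v : ℝ) : ℂ) := rfl
  rw [e]
  constructor
  · intro h h0
    apply h
    rw [h0]
    simp
  · intro h
    exact div_ne_zero (mul_ne_zero h ((map_ne_zero _).mpr h)) hN

lemma I3_ratio {n : ℕ} (v : Fin n → ℂ) (hv : I3_N v ≠ 0) (i j : Fin n) (hj : v j ≠ 0) :
    proj v i j / proj v j j = v i / v j := by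
  have hN : ((I3_N v : ℝ) : ℂ) ≠ 0 := by exact_mod_cast hv
  have hc : (starRingEnd ℂ) (v j) ≠ 0 := (map_ne_zero _).mpr hj
  have e1 : proj v i j = v i * (starRingEnd ℂ) (v j) / ((I3_N v : ℝ) : ℂ) := rfl
  have e2 : proj v j j = v j * (starRingEnd ℂ) (v j) / ((I3_N v : ℝ) : ℂ) := rfl
  rw [e1, e2]
  field_simp

/-- domains in homogeneous coordinates -/
def I3_dom (l : Fin 4) (p : Fin 3 → ℂ) (m : Fin 2 → ℂ) : Prop :=
  (![p 2 ≠ 0 ∧ m 0 ≠ 0, p 2 ≠ 0 ∧ m 1 ≠ 0, p 0 ≠ 0, p 1 ≠ 0] : Fin 4 → Prop) l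

/-- coordinates in homogeneous coordinates -/
def I3_co (l : Fin 4) (p : Fin 3 → ℂ) (m : Fin 2 → ℂ) : C2 :=
  (![(p 0 / p 2, m 1 / m 0), (p 1 / p 2, m 0 / m 1), (p 1 / p 0, p 2 / p 0), (p 0 / p 1, p 2 / p 1)] :
    Fin 4 → C2) l

lemma I3_hom (p : Fin 3 → ℂ) (m : Fin 2 → ℂ) (hp : I3_N p ≠ 0) (hm : I3_N m ≠ 0) (x : Bl)
    (hx : x.1 = (proj p, proj m)) (l : Fin 4) :
    (x ∈ dom l ↔ I3_dom l p m) ∧ (I3_dom l p m → coord l x = I3_co l p m) := by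
  have h1 : x.1.1 = proj p := by rw [hx]
  have h2 : x.1.2 = proj m := by rw [hx]
  fin_cases l
  · refine ⟨?_, ?_⟩
    · show (x.1.1 2 2 ≠ 0 ∧ x.1.2 0 0 ≠ 0) ↔ (p 2 ≠ 0 ∧ m 0 ≠ 0)
      rw [h1, h2, I3_diag p hp, I3_diag m hm]
    · rintro ⟨a, b⟩
      show (x.1.1 0 2 / x.1.1 2 2, x.1.2 1 0 / x.1.2 0 0) = (p 0 / p 2, m 1 / m 0)
      rw [h1, h2, I3_ratio p hp _ _ a, I3_ratio m hm _ _ b]
  · refine ⟨?_, ?_⟩
    · show (x.1.1 2 2 ≠ 0 ∧ x.1.2 1 1 ≠ 0) ↔ (p 2 ≠ 0 ∧ m 1 ≠ 0)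
      rw [h1, h2, I3_diag p hp, I3_diag m hm]
    · rintro ⟨a, b⟩
      show (x.1.1 1 2 / x.1.1 2 2, x.1.2 0 1 / x.1.2 1 1) = (p 1 / p 2, m 0 / m 1)
      rw [h1, h2, I3_ratio p hp _ _ a, I3_ratio m hm _ _ b]
  · refine ⟨?_, ?_⟩
    · show x.1.1 0 0 ≠ 0 ↔ p 0 ≠ 0
      rw [h1, I3_diag p hp]
    · intro a
      show (x.1.1 1 0 / x.1.1 0 0, x.1.1 2 0 / x.1.1 0 0) = (p 1 / p 0, p 2 / p 0)
      rw [h1, I3_ratio p hp _ _ a, I3_ratio p hp _ _ a]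
  · refine ⟨?_, ?_⟩
    · show x.1.1 1 1 ≠ 0 ↔ p 1 ≠ 0
      rw [h1, I3_diag p hp]
    · intro a
      show (x.1.1 0 1 / x.1.1 1 1, x.1.1 2 1 / x.1.1 1 1) = (p 0 / p 1, p 2 / p 1)
      rw [h1, I3_ratio p hp _ _ a, I3_ratio p hp _ _ a]

lemma I3_N3 (v : Fin 3 → ℂ) (i : Fin 3) (hi : v i = 1) : I3_N v ≠ 0 := by
  have h1 : ‖v i‖ ^ 2 ≤ I3_N v :=
    Finset.single_le_sum (f := fun k => ‖v k‖ ^ 2) (fun k _ => by positivity) (Finset.mem_univ i)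
  rw [hi] at h1
  simp at h1
  linarith

lemma I3_N2 (v : Fin 2 → ℂ) (i : Fin 2) (hi : v i = 1) : I3_N v ≠ 0 := by
  have h1 : ‖v i‖ ^ 2 ≤ I3_N v :=
    Finset.single_le_sum (f := fun k => ‖v k‖ ^ 2) (fun k _ => by positivity) (Finset.mem_univ i)
  rw [hi] at h1
  simp at h1
  linarith

lemma I3_Nl (k : Fin 4) (y : C2) : I3_N (parl k y) ≠ 0 := by
  fin_cases k
  · exact I3_N3 _ 2 rfl
  · exact I3_N3 _ 2 rfl
  · exact I3_N3 _ 0 rfl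
  · exact I3_N3 _ 1 rfl

lemma I3_Nm (k : Fin 4) (y : C2) : I3_N (parm k y) ≠ 0 := by
  fin_cases k
  · exact I3_N2 _ 0 rfl
  · exact I3_N2 _ 1 rfl
  · exact I3_N2 _ 0 rfl
  · exact I3_N2 _ 1 rfl

lemma I3_eval (k l : Fin 4) (y : C2) :
    (I3_dom l (parl k y) (parm k y) ↔ y ∈ trd k l) ∧
      (y ∈ trd k l → I3_co l (parl k y) (parm k y) = trf k l y) := by
  obtain ⟨a, b⟩ := y
  fin_cases k
  · fin_cases l
    · refine ⟨?_, fun _ => ?_⟩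
      · show ((1 : ℂ) ≠ 0 ∧ (1 : ℂ) ≠ 0) ↔ ((a, b) : C2) ∈ (univ : Set C2)
        simp
      · show (a / 1, b / 1) = (a, b)
        simp
    · refine ⟨?_, fun (h : b ≠ 0) => ?_⟩
      · show ((1 : ℂ) ≠ 0 ∧ b ≠ 0) ↔ b ≠ 0
        simp
      · show (a * b / 1, 1 / b) = (a * b, 1 / b)
        simp
    · refine ⟨Iff.rfl, fun (h : a ≠ 0) => ?_⟩
      show (a * b / a, 1 / a) = (b, 1 / a)
      rw [mul_div_cancel_left₀ _ h]
    · refine ⟨?_, fun (h : a ≠ 0 ∧ b ≠ 0) => ?_⟩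
      · show a * b ≠ 0 ↔ a ≠ 0 ∧ b ≠ 0
        exact mul_ne_zero_iff
      · show (a / (a * b), 1 / (a * b)) = (1 / b, 1 / (a * b))
        have h1 := h.1
        have h2 := h.2
        congr 1
        field_simp
  · fin_cases l
    · refine ⟨?_, fun (h : b ≠ 0) => ?_⟩
      · show ((1 : ℂ) ≠ 0 ∧ b ≠ 0) ↔ b ≠ 0
        simp
      · show (a * b / 1, 1 / b) = (a * b, 1 / b)
        simp
    · refine ⟨?_, fun _ => ?_⟩
      · show ((1 : ℂ) ≠ 0 ∧ (1 : ℂ) ≠ 0) ↔ ((a, b) : C2) ∈ (univ : Set C2)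
        simp
      · show (a / 1, b / 1) = (a, b)
        simp
    · refine ⟨?_, fun (h : a ≠ 0 ∧ b ≠ 0) => ?_⟩
      · show a * b ≠ 0 ↔ a ≠ 0 ∧ b ≠ 0
        exact mul_ne_zero_iff
      · show (a / (a * b), 1 / (a * b)) = (1 / b, 1 / (a * b))
        have h1 := h.1
        have h2 := h.2
        congr 1
        field_simp
    · refine ⟨Iff.rfl, fun (h : a ≠ 0) => ?_⟩
      show (a * b / a, 1 / a) = (b, 1 / a)
      rw [mul_div_cancel_left₀ _ h]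
  · fin_cases l
    · refine ⟨?_, fun (h : b ≠ 0) => ?_⟩
      · show (b ≠ 0 ∧ (1 : ℂ) ≠ 0) ↔ b ≠ 0
        simp
      · show (1 / b, a / 1) = (1 / b, a)
        simp
    · refine ⟨?_, fun (h : a ≠ 0 ∧ b ≠ 0) => ?_⟩
      · show (b ≠ 0 ∧ a ≠ 0) ↔ a ≠ 0 ∧ b ≠ 0
        exact and_comm
      · show (a / b, 1 / a) = (a / b, 1 / a)
        rfl
    · refine ⟨?_, fun _ => ?_⟩
      · show (1 : ℂ) ≠ 0 ↔ ((a, b) : C2) ∈ (univ : Set C2)
        simp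
      · show (a / 1, b / 1) = (a, b)
        simp
    · refine ⟨Iff.rfl, fun (h : a ≠ 0) => ?_⟩
      show (1 / a, b / a) = (1 / a, b / a)
      rfl
  · fin_cases l
    · refine ⟨?_, fun (h : a ≠ 0 ∧ b ≠ 0) => ?_⟩
      · show (b ≠ 0 ∧ a ≠ 0) ↔ a ≠ 0 ∧ b ≠ 0
        exact and_comm
      · show (a / b, 1 / a) = (a / b, 1 / a)
        rfl
    · refine ⟨?_, fun (h : b ≠ 0) => ?_⟩
      · show (b ≠ 0 ∧ (1 : ℂ) ≠ 0) ↔ b ≠ 0
        simp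
      · show (1 / b, a / 1) = (1 / b, a)
        simp
    · refine ⟨Iff.rfl, fun (h : a ≠ 0) => ?_⟩
      show (1 / a, b / a) = (1 / a, b / a)
      rfl
    · refine ⟨?_, fun _ => ?_⟩
      · show (1 : ℂ) ≠ 0 ↔ ((a, b) : C2) ∈ (univ : Set C2)
        simp
      · show (a / 1, b / 1) = (a, b)
        simp

lemma I3_o1 : IsOpen {y : C2 | y.1 ≠ 0} := isOpen_ne.preimage continuous_fst
lemma I3_o2 : IsOpen {y : C2 | y.2 ≠ 0} := isOpen_ne.preimage continuous_snd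
lemma I3_o12 : IsOpen {y : C2 | y.1 ≠ 0 ∧ y.2 ≠ 0} := I3_o1.inter I3_o2

lemma I3_fst (s : Set C2) : ContDiffOn ℂ ∞ (fun y : C2 => y.1) s := contDiff_fst.contDiffOn
lemma I3_snd (s : Set C2) : ContDiffOn ℂ ∞ (fun y : C2 => y.2) s := contDiff_snd.contDiffOn

lemma I3_div {f g : C2 → ℂ} {s : Set C2} (hf : ContDiffOn ℂ ∞ f s) (hg : ContDiffOn ℂ ∞ g s)
    (h : ∀ y ∈ s, g y ≠ 0) : ContDiffOn ℂ ∞ (fun y => f y / g y) s := hf.div hg h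

lemma I3_c0 : ContDiffOn ℂ ∞ (fun y : C2 => (y.1, y.2)) univ := (I3_fst _).prodMk (I3_snd _)
lemma I3_cA : ContDiffOn ℂ ∞ (fun y : C2 => (y.1 * y.2, 1 / y.2)) {y : C2 | y.2 ≠ 0} :=
  ((I3_fst _).mul (I3_snd _)).prodMk (I3_div contDiffOn_const (I3_snd _) fun _ h => h)
lemma I3_cB : ContDiffOn ℂ ∞ (fun y : C2 => (y.2, 1 / y.1)) {y : C2 | y.1 ≠ 0} :=
  (I3_snd _).prodMk (I3_div contDiffOn_const (I3_fst _) fun _ h => h)
lemma I3_cC : ContDiffOn ℂ ∞ (fun y : C2 => (1 / y.2, 1 / (y.1 * y.2)))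
    {y : C2 | y.1 ≠ 0 ∧ y.2 ≠ 0} :=
  (I3_div contDiffOn_const (I3_snd _) fun _ h => h.2).prodMk
    (I3_div contDiffOn_const ((I3_fst _).mul (I3_snd _)) fun _ h => mul_ne_zero h.1 h.2)
lemma I3_cD : ContDiffOn ℂ ∞ (fun y : C2 => (1 / y.2, y.1)) {y : C2 | y.2 ≠ 0} :=
  (I3_div contDiffOn_const (I3_snd _) fun _ h => h).prodMk (I3_fst _)
lemma I3_cE : ContDiffOn ℂ ∞ (fun y : C2 => (y.1 / y.2, 1 / y.1))
    {y : C2 | y.1 ≠ 0 ∧ y.2 ≠ 0} :=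
  (I3_div (I3_fst _) (I3_snd _) fun _ h => h.2).prodMk
    (I3_div contDiffOn_const (I3_fst _) fun _ h => h.1)
lemma I3_cF : ContDiffOn ℂ ∞ (fun y : C2 => (1 / y.1, y.2 / y.1)) {y : C2 | y.1 ≠ 0} :=
  (I3_div contDiffOn_const (I3_fst _) fun _ h => h).prodMk
    (I3_div (I3_snd _) (I3_fst _) fun _ h => h)

theorem I3 : I3_stmt := by
  refine ⟨fun k l y x hx => ?_, fun k l => ⟨?_, ?_⟩⟩
  · have h1 := I3_hom _ _ (I3_Nl k y) (I3_Nm k y) x hx l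
    have h2 := I3_eval k l y
    refine ⟨h1.1.trans h2.1, fun hy => ?_⟩
    rw [h1.2 (h2.1.mpr hy), h2.2 hy]
  · fin_cases k <;> fin_cases l
    · exact isOpen_univ
    · exact I3_o2
    · exact I3_o1
    · exact I3_o12
    · exact I3_o2
    · exact isOpen_univ
    · exact I3_o12
    · exact I3_o1
    · exact I3_o2
    · exact I3_o12
    · exact isOpen_univ
    · exact I3_o1
    · exact I3_o12
    · exact I3_o2
    · exact I3_o1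
    · exact isOpen_univ
  · fin_cases k <;> fin_cases l
    · exact I3_c0
    · exact I3_cA
    · exact I3_cB
    · exact I3_cC
    · exact I3_cA
    · exact I3_c0
    · exact I3_cC
    · exact I3_cB
    · exact I3_cD
    · exact I3_cE
    · exact I3_c0
    · exact I3_cF
    · exact I3_cE
    · exact I3_cD
    · exact I3_cF
    · exact I3_c0

end

end DMAProblem
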