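import Pool.Agent.helper50.MA.SpecI

/-!
# ma, module I5: cocycle, positivity and smoothness of the explicit data on the blow-up of the plane
-/

set_option autoImplicit false

open MeasureTheory Set Filter Topology Complex Matrix
open scoped ContDiff Real Manifold

namespace DMAProblem

noncomputable section

/-! ## second derivatives -/

lemma I5_D2_eq {u : C2 → ℝ} (hu : ContDiff ℝ 2 u) (y ξ η : C2) :
    D2 u y ξ η = fderiv ℝ (fun z => fderiv ℝ u z η) y ξ := by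
  have h1 : ContDiff ℝ 1 (fderiv ℝ u) := hu.fderiv_right (by norm_num)
  have h2 := ((h1.differentiable (by norm_num)) y).hasFDerivAt.clm_apply (hasFDerivAt_const η y)
  rw [h2.fderiv]
  unfold D2
  simp

lemma I5_add {u v : C2 → ℝ} (hu : ContDiff ℝ 2 u) (hv : ContDiff ℝ 2 v) (a b : ℝ) (y ξ : C2) :
    lap (fun z => a * u z + b * v z) y ξ = a * lap u y ξ + b * lap v y ξ := by
  have hw : ContDiff ℝ 2 (fun z => a * u z + b * v z) :=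
    (contDiff_const.mul hu).add (contDiff_const.mul hv)
  have key : ∀ ζ η : C2, D2 (fun z => a * u z + b * v z) y ζ η =
      a * D2 u y ζ η + b * D2 v y ζ η := by
    intro ζ η
    rw [I5_D2_eq hw, I5_D2_eq hu, I5_D2_eq hv]
    have h1 : ∀ z, fderiv ℝ (fun z => a * u z + b * v z) z η =
        a * fderiv ℝ u z η + b * fderiv ℝ v z η := by
      intro z
      have du := (hu.differentiable (by norm_num) z).hasFDerivAt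
      have dv := (hv.differentiable (by norm_num) z).hasFDerivAt
      have e : fderiv ℝ (fun z => a * u z + b * v z) z = _ :=
        ((du.const_mul a).add (dv.const_mul b)).fderiv
      rw [e]
      simp
    simp only [h1]
    have hu1 : ContDiff ℝ 1 (fun z => fderiv ℝ u z η) :=
      (hu.fderiv_right (by norm_num)).clm_apply contDiff_const
    have hv1 : ContDiff ℝ 1 (fun z => fderiv ℝ v z η) :=
      (hv.fderiv_right (by norm_num)).clm_apply contDiff_const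
    have du := (hu1.differentiable (by norm_num) y).hasFDerivAt
    have dv := (hv1.differentiable (by norm_num) y).hasFDerivAt
    have e : fderiv ℝ (fun z => a * fderiv ℝ u z η + b * fderiv ℝ v z η) y = _ :=
      ((du.const_mul a).add (dv.const_mul b)).fderiv
    rw [e]
    simp
  unfold lap
  rw [key, key]
  ring

lemma I5_two {u : C2 → ℝ} (hu : ContDiff ℝ ∞ u) : ContDiff ℝ 2 u := by
  have := contDiff_infty.mp hu 2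
  exact_mod_cast this

section hol
variable {f g : C2 → ℂ}

lemma I5_real (hf : ContDiff ℂ ∞ f) : ContDiff ℝ ∞ f := hf.restrict_scalars ℝ

lemma I5_hasR (hf : ContDiff ℂ ∞ f) (z : C2) :
    HasFDerivAt f ((fderiv ℂ f z).restrictScalars ℝ) z :=
  ((hf.differentiable (by simp)) z).hasFDerivAt.restrictScalars ℝ

/-- first derivative of the squared norm -/
lemma I5_nd (hf : ContDiff ℂ ∞ f) (z ξ : C2) :
    fderiv ℝ (fun z => ‖f z‖ ^ 2) z ξ = 2 * ((starRingEnd ℂ) (f z) * fderiv ℂ f z ξ).re := by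
  have h := (I5_hasR hf z).norm_sq
  rw [h.fderiv]
  simp [Complex.inner]
  ring

lemma I5_nc (hf : ContDiff ℂ ∞ f) : ContDiff ℝ ∞ (fun z => ‖f z‖ ^ 2) := (I5_real hf).norm_sq ℝ

/-- second derivative of the squared norm -/
lemma I5_nd2 (hf : ContDiff ℂ ∞ f) (y ξ : C2) :
    D2 (fun z => ‖f z‖ ^ 2) y ξ ξ = 2 * (‖fderiv ℂ f y ξ‖ ^ 2 +
      ((starRingEnd ℂ) (f y) * fderiv ℂ (fderiv ℂ f) y ξ ξ).re) := by
  have hu : ContDiff ℝ 2 (fun z => ‖f z‖ ^ 2) := I5_two (I5_nc hf)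
  rw [I5_D2_eq hu]
  simp only [I5_nd hf]
  have hf1 : ContDiff ℂ ∞ (fderiv ℂ f) := hf.fderiv_right (by simp)
  have h1 : HasFDerivAt (fun z => fderiv ℂ f z ξ)
      ((((fderiv ℂ (fderiv ℂ f) y).flip ξ)).restrictScalars ℝ) y := by
    have h2 := ((hf1.differentiable (by simp)) y).hasFDerivAt.clm_apply (hasFDerivAt_const ξ y)
    have h3 := h2.restrictScalars ℝ
    refine h3.congr_fderiv ?_
    ext v <;> simp
  have h4 : HasFDerivAt (fun z => (starRingEnd ℂ) (f z))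
      (((Complex.conjCLE : ℂ →L[ℝ] ℂ)).comp ((fderiv ℂ f y).restrictScalars ℝ)) y :=
    (Complex.conjCLE : ℂ →L[ℝ] ℂ).hasFDerivAt.comp y (I5_hasR hf y)
  have h5 := (h4.mul h1)
  have h6 := (Complex.reCLM.hasFDerivAt.comp y h5).const_mul 2
  have h7 : fderiv ℝ (fun z => 2 * ((starRingEnd ℂ) (f z) * fderiv ℂ f z ξ).re) y = _ := h6.fderiv
  rw [h7]
  simp only [_root_.smul_apply, ContinuousLinearMap.comp_apply,
    _root_.add_apply, smul_eq_mul, Complex.reCLM_apply,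
    ContinuousLinearMap.coe_restrictScalars', ContinuousLinearMap.flip_apply,
    ContinuousLinearEquiv.coe_coe, Complex.conjCLE_apply, Complex.add_re]
  have h8 : (fderiv ℂ f y ξ * (starRingEnd ℂ) (fderiv ℂ f y ξ)).re = ‖fderiv ℂ f y ξ‖ ^ 2 := by
    rw [Complex.mul_conj, Complex.normSq_eq_norm_sq, Complex.ofReal_re]
  rw [h8]
  ring

lemma I5_lapn (hf : ContDiff ℂ ∞ f) (y ξ : C2) :
    lap (fun z => ‖f z‖ ^ 2) y ξ = 4 * ‖fderiv ℂ f y ξ‖ ^ 2 := by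
  unfold lap
  rw [I5_nd2 hf, I5_nd2 hf]
  have h1 : fderiv ℂ f y (I • ξ) = I * fderiv ℂ f y ξ := by rw [map_smul, smul_eq_mul]
  have h2 : fderiv ℂ (fderiv ℂ f) y (I • ξ) (I • ξ) = -fderiv ℂ (fderiv ℂ f) y ξ ξ := by
    rw [map_smul, map_smul, _root_.smul_apply, smul_smul, Complex.I_mul_I]
    simp
  rw [h1, h2, norm_mul, Complex.norm_I, one_mul, mul_neg, Complex.neg_re]
  ring

/-- `log (1 + |f|² + |g|²)` -/
lemma I5_log (hf : ContDiff ℂ ∞ f) (hg : ContDiff ℂ ∞ g) (y ξ : C2) :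
    lap (fun z => Real.log (1 + ‖f z‖ ^ 2 + ‖g z‖ ^ 2)) y ξ =
      4 * (‖fderiv ℂ f y ξ‖ ^ 2 + ‖fderiv ℂ g y ξ‖ ^ 2 +
        ‖f y * fderiv ℂ g y ξ - g y * fderiv ℂ f y ξ‖ ^ 2) /
        (1 + ‖f y‖ ^ 2 + ‖g y‖ ^ 2) ^ 2 := by
  set P : C2 → ℝ := fun z => 1 + ‖f z‖ ^ 2 + ‖g z‖ ^ 2 with hP
  have hPpos : ∀ z, 0 < P z := fun z => by
    have h1 := sq_nonneg ‖f z‖
    have h2 := sq_nonneg ‖g z‖
    show 0 < 1 + ‖f z‖ ^ 2 + ‖g z‖ ^ 2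
    linarith
  have hPc : ContDiff ℝ ∞ P := (contDiff_const.add (I5_nc hf)).add (I5_nc hg)
  have hPc2 : ContDiff ℝ 2 P := I5_two hPc
  have hL : ContDiff ℝ 2 (fun z => Real.log (P z)) := hPc2.log fun z => (hPpos z).ne'
  have hPd : ∀ z η, fderiv ℝ P z η = 2 * ((starRingEnd ℂ) (f z) * fderiv ℂ f z η +
      (starRingEnd ℂ) (g z) * fderiv ℂ g z η).re := by
    intro z η
    have df := ((I5_nc hf).differentiable (by simp) z).hasFDerivAt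
    have dg := ((I5_nc hg).differentiable (by simp) z).hasFDerivAt
    have e : fderiv ℝ P z = _ := ((df.const_add 1).add dg).fderiv
    rw [e, _root_.add_apply, I5_nd hf, I5_nd hg, Complex.add_re]
    ring
  have hP2 : lap P y ξ = 4 * (‖fderiv ℂ f y ξ‖ ^ 2 + ‖fderiv ℂ g y ξ‖ ^ 2) := by
    have h1 : ∀ η, D2 P y η η = D2 (fun z => ‖f z‖ ^ 2) y η η + D2 (fun z => ‖g z‖ ^ 2) y η η := by
      intro η
      have hf2 : ContDiff ℝ 2 (fun z => ‖f z‖ ^ 2) := I5_two (I5_nc hf)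
      have hg2 : ContDiff ℝ 2 (fun z => ‖g z‖ ^ 2) := I5_two (I5_nc hg)
      rw [I5_D2_eq hPc2, I5_D2_eq hf2, I5_D2_eq hg2]
      have h2 : ∀ z, fderiv ℝ P z η = fderiv ℝ (fun z => ‖f z‖ ^ 2) z η +
          fderiv ℝ (fun z => ‖g z‖ ^ 2) z η := by
        intro z
        rw [hPd, I5_nd hf, I5_nd hg, Complex.add_re]
        ring
      simp only [h2]
      have hu1 : ContDiff ℝ 1 (fun z => fderiv ℝ (fun z => ‖f z‖ ^ 2) z η) :=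
        (hf2.fderiv_right (by norm_num)).clm_apply contDiff_const
      have hv1 : ContDiff ℝ 1 (fun z => fderiv ℝ (fun z => ‖g z‖ ^ 2) z η) :=
        (hg2.fderiv_right (by norm_num)).clm_apply contDiff_const
      have du := (hu1.differentiable (by norm_num) y).hasFDerivAt
      have dv := (hv1.differentiable (by norm_num) y).hasFDerivAt
      have e : fderiv ℝ (fun z => fderiv ℝ (fun z => ‖f z‖ ^ 2) z η +
          fderiv ℝ (fun z => ‖g z‖ ^ 2) z η) y = _ := (du.add dv).fderiv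
      rw [e]
      rfl
    have h3 := I5_lapn hf y ξ
    have h4 := I5_lapn hg y ξ
    unfold lap at h3 h4 ⊢
    rw [h1, h1]
    linarith
  have hlog2 : ∀ η, D2 (fun z => Real.log (P z)) y η η =
      D2 P y η η / P y - (fderiv ℝ P y η) ^ 2 / (P y) ^ 2 := by
    intro η
    rw [I5_D2_eq hL, I5_D2_eq hPc2]
    have h1 : ∀ z, fderiv ℝ (fun z => Real.log (P z)) z η = (P z)⁻¹ * fderiv ℝ P z η := by
      intro z
      have dP := (hPc2.differentiable (by norm_num) z).hasFDerivAt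
      rw [(dP.log (hPpos z).ne').fderiv]
      simp
    simp only [h1]
    have hu1 : ContDiff ℝ 1 (fun z => fderiv ℝ P z η) :=
      (hPc2.fderiv_right (by norm_num)).clm_apply contDiff_const
    have d1 := (hu1.differentiable (by norm_num) y).hasFDerivAt
    have dP := (hPc2.differentiable (by norm_num) y).hasFDerivAt
    have d2 : HasFDerivAt (fun z => (P z)⁻¹) (-((P y) ^ 2)⁻¹ • fderiv ℝ P y) y := by
      have := (hasDerivAt_inv (hPpos y).ne').comp_hasFDerivAt y dP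
      exact this
    have d3 := d2.mul d1
    have e : fderiv ℝ (fun z => (P z)⁻¹ * fderiv ℝ P z η) y = _ := d3.fderiv
    rw [e]
    simp only [_root_.add_apply, _root_.smul_apply, smul_eq_mul]
    have hne := (hPpos y).ne'
    field_simp
    ring
  set S : ℂ := (starRingEnd ℂ) (f y) * fderiv ℂ f y ξ + (starRingEnd ℂ) (g y) * fderiv ℂ g y ξ
    with hS
  have hS1 : fderiv ℝ P y ξ = 2 * S.re := hPd y ξ
  have hS2 : fderiv ℝ P y (I • ξ) = -2 * S.im := by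
    rw [hPd, map_smul, map_smul, smul_eq_mul, smul_eq_mul]
    have : (starRingEnd ℂ) (f y) * (I * fderiv ℂ f y ξ) +
        (starRingEnd ℂ) (g y) * (I * fderiv ℂ g y ξ) = I * S := by
      rw [hS]; ring
    rw [this, Complex.I_mul_re]
    ring
  have hmain : lap (fun z => Real.log (P z)) y ξ = lap P y ξ / P y - 4 * ‖S‖ ^ 2 / (P y) ^ 2 := by
    have h1 : ‖S‖ ^ 2 = S.re ^ 2 + S.im ^ 2 := by
      rw [← Complex.normSq_eq_norm_sq, Complex.normSq_apply]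
      ring
    rw [h1]
    unfold lap
    rw [hlog2, hlog2, hS1, hS2]
    ring
  have hid : ‖S‖ ^ 2 = (P y) * (‖fderiv ℂ f y ξ‖ ^ 2 + ‖fderiv ℂ g y ξ‖ ^ 2) -
      (‖fderiv ℂ f y ξ‖ ^ 2 + ‖fderiv ℂ g y ξ‖ ^ 2 +
        ‖f y * fderiv ℂ g y ξ - g y * fderiv ℂ f y ξ‖ ^ 2) := by
    have hPy : P y = 1 + ‖f y‖ ^ 2 + ‖g y‖ ^ 2 := rfl
    rw [hS, hPy]
    generalize fderiv ℂ f y ξ = f'
    generalize fderiv ℂ g y ξ = g'
    generalize f y = a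
    generalize g y = b
    simp only [← Complex.normSq_eq_norm_sq, Complex.normSq_apply, Complex.add_re, Complex.add_im,
      Complex.mul_re, Complex.mul_im, Complex.conj_re, Complex.conj_im, Complex.sub_re,
      Complex.sub_im]
    ring
  show lap (fun z => Real.log (P z)) y ξ = 4 * _ / (P y) ^ 2
  rw [hmain, hP2, hid]
  have hne := (hPpos y).ne'
  field_simp
  ring

end hol

/-! ## first derivatives of rational functions -/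

/-- the linear form `p v₁ + q v₂` -/
def I5_G (p q : ℂ) : C2 →L[ℂ] ℂ :=
  p • ContinuousLinearMap.fst ℂ ℂ ℂ + q • ContinuousLinearMap.snd ℂ ℂ ℂ

lemma I5_G_apply (p q : ℂ) (v : C2) : I5_G p q v = p * v.1 + q * v.2 := by
  simp [I5_G]

lemma I5_g1 (y : C2) : HasFDerivAt (fun z : C2 => z.1) (I5_G 1 0) y := by
  have : I5_G 1 0 = ContinuousLinearMap.fst ℂ ℂ ℂ := by
    ext <;> simp [I5_G_apply]
  rw [this]
  exact hasFDerivAt_fst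

lemma I5_g2 (y : C2) : HasFDerivAt (fun z : C2 => z.2) (I5_G 0 1) y := by
  have : I5_G 0 1 = ContinuousLinearMap.snd ℂ ℂ ℂ := by
    ext <;> simp [I5_G_apply]
  rw [this]
  exact hasFDerivAt_snd

lemma I5_gmul {f g : C2 → ℂ} {p q r s : ℂ} {y : C2} (hf : HasFDerivAt f (I5_G p q) y)
    (hg : HasFDerivAt g (I5_G r s) y) :
    HasFDerivAt (fun z => f z * g z) (I5_G (f y * r + g y * p) (f y * s + g y * q)) y := by
  refine (hf.mul hg).congr_fderiv ?_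
  ext <;> simp [I5_G_apply]

lemma I5_gadd {f g : C2 → ℂ} {p q r s : ℂ} {y : C2} (hf : HasFDerivAt f (I5_G p q) y)
    (hg : HasFDerivAt g (I5_G r s) y) :
    HasFDerivAt (fun z => f z + g z) (I5_G (p + r) (q + s)) y := by
  refine (hf.add hg).congr_fderiv ?_
  ext <;> simp [I5_G_apply]

lemma I5_gconst (c : ℂ) (y : C2) : HasFDerivAt (fun _ : C2 => c) (I5_G 0 0) y := by
  refine (hasFDerivAt_const c y).congr_fderiv ?_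
  ext <;> simp [I5_G_apply]

lemma I5_ginv {f : C2 → ℂ} {p q : ℂ} {y : C2} (hf : HasFDerivAt f (I5_G p q) y)
    (h0 : f y ≠ 0) :
    HasFDerivAt (fun z => 1 / f z) (I5_G (-p / (f y) ^ 2) (-q / (f y) ^ 2)) y := by
  have h1 := (hasDerivAt_inv h0).comp_hasFDerivAt y hf
  have h2 : (fun z => 1 / f z) = (fun x => x⁻¹) ∘ f := by
    funext z
    simp
  rw [h2]
  refine h1.congr_fderiv ?_
  ext <;> simp [I5_G_apply] <;> field_simp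

lemma I5_gdiv {f g : C2 → ℂ} {p q r s : ℂ} {y : C2} (hf : HasFDerivAt f (I5_G p q) y)
    (hg : HasFDerivAt g (I5_G r s) y) (h0 : g y ≠ 0) :
    HasFDerivAt (fun z => f z / g z) (I5_G ((p * g y - f y * r) / (g y) ^ 2)
      ((q * g y - f y * s) / (g y) ^ 2)) y := by
  have h1 := I5_gmul hf (I5_ginv hg h0)
  have h2 : (fun z => f z / g z) = fun z => f z * (1 / g z) := by
    funext z
    rw [mul_one_div]
  rw [h2]
  refine h1.congr_fderiv ?_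
  ext
  · simp [I5_G_apply]; field_simp; ring
  · simp [I5_G_apply]; field_simp; ring

lemma I5_det (L : C2 →L[ℂ] C2) :
    L.det = (L (1, 0)).1 * (L (0, 1)).2 - (L (0, 1)).1 * (L (1, 0)).2 := by
  have h1 : L.det = LinearMap.det (L : C2 →ₗ[ℂ] C2) := rfl
  rw [h1, ← LinearMap.det_toMatrix (Module.Basis.finTwoProd ℂ), Matrix.det_fin_two]
  simp [LinearMap.toMatrix_apply]

lemma I5_J {f g : C2 → ℂ} {p q r s : ℂ} {y : C2} (hf : HasFDerivAt f (I5_G p q) y)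
    (hg : HasFDerivAt g (I5_G r s) y) :
    (fderiv ℂ (fun z => (f z, g z)) y).det = p * s - q * r := by
  have e : fderiv ℂ (fun z => (f z, g z)) y = _ := (hf.prodMk hg).fderiv
  rw [e, I5_det]
  simp [I5_G_apply]

/-! ## the data in the charts -/

def I5_va (y : C2) : ℝ :=
  ((1 + ‖y.1‖ ^ 2 + ‖y.1 * y.2‖ ^ 2) ^ 2 * (1 + ‖y.2‖ ^ 2 + ‖(0 : ℂ)‖ ^ 2))⁻¹
def I5_vb (y : C2) : ℝ :=
  ((1 + ‖y.1‖ ^ 2 + ‖y.2‖ ^ 2) ^ 2 * (1 + ‖y.1‖ ^ 2 + ‖(0 : ℂ)‖ ^ 2))⁻¹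

lemma I5_v0 : vol0 0 = I5_va := by
  funext y
  unfold vol0 nl nm I5_va
  rw [Fin.sum_univ_three, Fin.sum_univ_two]
  show ((‖y.1‖ ^ 2 + ‖y.1 * y.2‖ ^ 2 + ‖(1 : ℂ)‖ ^ 2) ^ 2 * (‖(1 : ℂ)‖ ^ 2 + ‖y.2‖ ^ 2))⁻¹ = _
  rw [norm_one, norm_zero]
  congr 1
  ring

lemma I5_v1 : vol0 1 = I5_va := by
  funext y
  unfold vol0 nl nm I5_va
  rw [Fin.sum_univ_three, Fin.sum_univ_two]
  show ((‖y.1 * y.2‖ ^ 2 + ‖y.1‖ ^ 2 + ‖(1 : ℂ)‖ ^ 2) ^ 2 * (‖y.2‖ ^ 2 + ‖(1 : ℂ)‖ ^ 2))⁻¹ = _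
  rw [norm_one, norm_zero]
  congr 1
  ring

lemma I5_v2 : vol0 2 = I5_vb := by
  funext y
  unfold vol0 nl nm I5_vb
  rw [Fin.sum_univ_three, Fin.sum_univ_two]
  show ((‖(1 : ℂ)‖ ^ 2 + ‖y.1‖ ^ 2 + ‖y.2‖ ^ 2) ^ 2 * (‖(1 : ℂ)‖ ^ 2 + ‖y.1‖ ^ 2))⁻¹ = _
  rw [norm_one, norm_zero]
  congr 1
  ring

lemma I5_v3 : vol0 3 = I5_vb := by
  funext y
  unfold vol0 nl nm I5_vb
  rw [Fin.sum_univ_three, Fin.sum_univ_two]
  show ((‖y.1‖ ^ 2 + ‖(1 : ℂ)‖ ^ 2 + ‖y.2‖ ^ 2) ^ 2 * (‖y.1‖ ^ 2 + ‖(1 : ℂ)‖ ^ 2))⁻¹ = _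
  rw [norm_one, norm_zero]
  congr 1
  ring

def I5_s0 (y : C2) : ℂ := 1 + y.1 * y.1 + y.1 * y.1 * (y.2 * (y.2 * y.2))
def I5_s1 (y : C2) : ℂ := -1 * (y.2 + y.1 * y.1 * (y.2 * (y.2 * y.2)) + y.1 * y.1)
def I5_s2 (y : C2) : ℂ := 1 + y.2 * y.2 + y.1 * (y.1 * y.1)
def I5_s3 (y : C2) : ℂ := -1 * (y.1 * (y.2 * y.2) + y.1 * (y.1 * y.1) + 1)

lemma I5_e0 : sec0 0 = I5_s0 := by
  funext y
  show (1 : ℂ) * (1 * 1 ^ 2 + 1 * y.1 ^ 2 + y.2 * (y.1 * y.2) ^ 2) = I5_s0 y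
  unfold I5_s0
  ring

lemma I5_e1 : sec0 1 = I5_s1 := by
  funext y
  show (-1 : ℂ) * (y.2 * 1 ^ 2 + y.2 * (y.1 * y.2) ^ 2 + 1 * y.1 ^ 2) = I5_s1 y
  unfold I5_s1
  ring

lemma I5_e2 : sec0 2 = I5_s2 := by
  funext y
  show (1 : ℂ) * (1 * y.2 ^ 2 + 1 * 1 ^ 2 + y.1 * y.1 ^ 2) = I5_s2 y
  unfold I5_s2
  ring

lemma I5_e3 : sec0 3 = I5_s3 := by
  funext y
  show (-1 : ℂ) * (y.1 * y.2 ^ 2 + y.1 * y.1 ^ 2 + 1 * 1 ^ 2) = I5_s3 y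
  unfold I5_s3
  ring

/-! ### positivity -/

lemma I5_dfst (y ξ : C2) : fderiv ℂ (fun z : C2 => z.1) y ξ = ξ.1 := by
  rw [(I5_g1 y).fderiv, I5_G_apply]; ring
lemma I5_dsnd (y ξ : C2) : fderiv ℂ (fun z : C2 => z.2) y ξ = ξ.2 := by
  rw [(I5_g2 y).fderiv, I5_G_apply]; ring
lemma I5_dmul (y ξ : C2) : fderiv ℂ (fun z : C2 => z.1 * z.2) y ξ = y.2 * ξ.1 + y.1 * ξ.2 := by
  rw [(I5_gmul (I5_g1 y) (I5_g2 y)).fderiv, I5_G_apply]; ring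
lemma I5_dzero (y ξ : C2) : fderiv ℂ (fun _ : C2 => (0 : ℂ)) y ξ = 0 := by
  rw [(I5_gconst 0 y).fderiv, I5_G_apply]; ring

lemma I5_cfst : ContDiff ℂ ∞ (fun z : C2 => z.1) := contDiff_fst
lemma I5_csnd : ContDiff ℂ ∞ (fun z : C2 => z.2) := contDiff_snd
lemma I5_cmul : ContDiff ℂ ∞ (fun z : C2 => z.1 * z.2) := I5_cfst.mul I5_csnd
lemma I5_czero : ContDiff ℂ ∞ (fun _ : C2 => (0 : ℂ)) := contDiff_const

lemma I5_posP (a b : ℂ) : 0 < 1 + ‖a‖ ^ 2 + ‖b‖ ^ 2 := by positivity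

lemma I5_Pc {f g : C2 → ℂ} (hf : ContDiff ℂ ∞ f) (hg : ContDiff ℂ ∞ g) :
    ContDiff ℝ ∞ (fun z => 1 + ‖f z‖ ^ 2 + ‖g z‖ ^ 2) :=
  (contDiff_const.add (I5_nc hf)).add (I5_nc hg)

lemma I5_logc {f g : C2 → ℂ} (hf : ContDiff ℂ ∞ f) (hg : ContDiff ℂ ∞ g) :
    ContDiff ℝ 2 (fun z => Real.log (1 + ‖f z‖ ^ 2 + ‖g z‖ ^ 2)) :=
  (I5_two (I5_Pc hf hg)).log fun z => (I5_posP _ _).ne'

lemma I5_vlap {f g h : C2 → ℂ} (hf : ContDiff ℂ ∞ f) (hg : ContDiff ℂ ∞ g)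
    (hh : ContDiff ℂ ∞ h) (y ξ : C2) :
    lap (fun z => -(1 / 2) * Real.log (((1 + ‖f z‖ ^ 2 + ‖g z‖ ^ 2) ^ 2 *
      (1 + ‖h z‖ ^ 2 + ‖(0 : ℂ)‖ ^ 2))⁻¹)) y ξ =
    4 * (‖fderiv ℂ f y ξ‖ ^ 2 + ‖fderiv ℂ g y ξ‖ ^ 2 +
        ‖f y * fderiv ℂ g y ξ - g y * fderiv ℂ f y ξ‖ ^ 2) /
        (1 + ‖f y‖ ^ 2 + ‖g y‖ ^ 2) ^ 2 +
      1 / 2 * (4 * (‖fderiv ℂ h y ξ‖ ^ 2) / (1 + ‖h y‖ ^ 2) ^ 2) := by
  have e : (fun z : C2 => -(1 / 2) * Real.log (((1 + ‖f z‖ ^ 2 + ‖g z‖ ^ 2) ^ 2 *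
      (1 + ‖h z‖ ^ 2 + ‖(0 : ℂ)‖ ^ 2))⁻¹)) = fun z =>
      1 * Real.log (1 + ‖f z‖ ^ 2 + ‖g z‖ ^ 2) +
      1 / 2 * Real.log (1 + ‖h z‖ ^ 2 + ‖(0 : ℂ)‖ ^ 2) := by
    funext z
    rw [Real.log_inv, Real.log_mul (pow_ne_zero _ (I5_posP _ _).ne') (I5_posP _ _).ne',
      Real.log_pow]
    push_cast
    ring
  rw [e, I5_add (I5_logc hf hg) (I5_logc hh I5_czero), I5_log hf hg, I5_log hh I5_czero,
    I5_dzero]
  simp

lemma I5_pa (y ξ : C2) (hξ : ξ ≠ 0) :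
    0 < lap (fun z => -(1 / 2) * Real.log (I5_va z)) y ξ := by
  have h := I5_vlap I5_cfst I5_cmul I5_csnd y ξ
  have e : (fun z => -(1 / 2) * Real.log (I5_va z)) = fun z : C2 => -(1 / 2) *
      Real.log (((1 + ‖z.1‖ ^ 2 + ‖z.1 * z.2‖ ^ 2) ^ 2 *
      (1 + ‖z.2‖ ^ 2 + ‖(0 : ℂ)‖ ^ 2))⁻¹) := rfl
  rw [e, h, I5_dfst, I5_dsnd, I5_dmul]
  by_cases h1 : ξ.1 = 0
  · have h2 : ξ.2 ≠ 0 := by
      intro h2
      exact hξ (Prod.ext h1 h2)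
    have h3 : 0 < ‖ξ.2‖ := norm_pos_iff.mpr h2
    positivity
  · have h3 : 0 < ‖ξ.1‖ := norm_pos_iff.mpr h1
    positivity

lemma I5_pb (y ξ : C2) (hξ : ξ ≠ 0) :
    0 < lap (fun z => -(1 / 2) * Real.log (I5_vb z)) y ξ := by
  have h := I5_vlap I5_cfst I5_csnd I5_cfst y ξ
  have e : (fun z => -(1 / 2) * Real.log (I5_vb z)) = fun z : C2 => -(1 / 2) *
      Real.log (((1 + ‖z.1‖ ^ 2 + ‖z.2‖ ^ 2) ^ 2 *
      (1 + ‖z.1‖ ^ 2 + ‖(0 : ℂ)‖ ^ 2))⁻¹) := rfl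
  rw [e, h, I5_dfst, I5_dsnd]
  by_cases h1 : ξ.1 = 0
  · have h2 : ξ.2 ≠ 0 := by
      intro h2
      exact hξ (Prod.ext h1 h2)
    have h3 : 0 < ‖ξ.2‖ := norm_pos_iff.mpr h2
    positivity
  · have h3 : 0 < ‖ξ.1‖ := norm_pos_iff.mpr h1
    positivity

lemma I5_ca : ContDiff ℝ ∞ I5_va :=
  (((I5_Pc I5_cfst I5_cmul).pow 2).mul (I5_Pc I5_csnd I5_czero)).inv fun z =>
    mul_ne_zero (pow_ne_zero _ (I5_posP _ _).ne') (I5_posP _ _).ne'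

lemma I5_cb : ContDiff ℝ ∞ I5_vb :=
  (((I5_Pc I5_cfst I5_csnd).pow 2).mul (I5_Pc I5_cfst I5_czero)).inv fun z =>
    mul_ne_zero (pow_ne_zero _ (I5_posP _ _).ne') (I5_posP _ _).ne'

lemma I5_ppa (y : C2) : 0 < I5_va y := by
  unfold I5_va
  have h1 := I5_posP y.1 (y.1 * y.2)
  have h2 := I5_posP y.2 0
  positivity

lemma I5_ppb (y : C2) : 0 < I5_vb y := by
  unfold I5_vb
  have h1 := I5_posP y.1 y.2
  have h2 := I5_posP y.1 0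
  positivity

/-! ### the section -/

lemma I5_G_zero {p q : ℂ} (h : I5_G p q = 0) : p = 0 ∧ q = 0 := by
  have h1 := congrArg (fun L : C2 →L[ℂ] ℂ => L (1, 0)) h
  have h2 := congrArg (fun L : C2 →L[ℂ] ℂ => L (0, 1)) h
  simp [I5_G_apply] at h1 h2
  exact ⟨h1, h2⟩

lemma I5_t0 (y : C2) (h : I5_s0 y = 0) : fderiv ℂ I5_s0 y ≠ 0 := by
  have d1 := I5_g1 y
  have d2 := I5_g2 y
  have d11 := I5_gmul d1 d1
  have d := I5_gadd (I5_gadd (I5_gconst 1 y) d11) (I5_gmul d11 (I5_gmul d2 (I5_gmul d2 d2)))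
  have e : fderiv ℂ I5_s0 y = _ := d.fderiv
  rw [e]
  intro hc
  obtain ⟨h1, h2⟩ := I5_G_zero hc
  unfold I5_s0 at h
  have h3 : (1 : ℂ) = 0 := by linear_combination h - (y.1 / 2) * h1
  exact one_ne_zero h3

lemma I5_t1 (y : C2) (h : I5_s1 y = 0) : fderiv ℂ I5_s1 y ≠ 0 := by
  have d1 := I5_g1 y
  have d2 := I5_g2 y
  have d11 := I5_gmul d1 d1
  have d := I5_gmul (I5_gconst (-1) y)
    (I5_gadd (I5_gadd d2 (I5_gmul d11 (I5_gmul d2 (I5_gmul d2 d2)))) d11)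
  have e : fderiv ℂ I5_s1 y = _ := d.fderiv
  rw [e]
  intro hc
  obtain ⟨h1, h2⟩ := I5_G_zero hc
  unfold I5_s1 at h
  have h3 : y.2 = 0 := by linear_combination -h + (y.1 / 2) * h1
  rw [h3] at h2
  have h4 : (1 : ℂ) = 0 := by linear_combination -h2
  exact one_ne_zero h4

lemma I5_t2 (y : C2) (h : I5_s2 y = 0) : fderiv ℂ I5_s2 y ≠ 0 := by
  have d1 := I5_g1 y
  have d2 := I5_g2 y
  have d := I5_gadd (I5_gadd (I5_gconst 1 y) (I5_gmul d2 d2)) (I5_gmul d1 (I5_gmul d1 d1))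
  have e : fderiv ℂ I5_s2 y = _ := d.fderiv
  rw [e]
  intro hc
  obtain ⟨h1, h2⟩ := I5_G_zero hc
  unfold I5_s2 at h
  have h3 : (1 : ℂ) = 0 := by linear_combination h - (y.1 / 3) * h1 - (y.2 / 2) * h2
  exact one_ne_zero h3

lemma I5_t3 (y : C2) (h : I5_s3 y = 0) : fderiv ℂ I5_s3 y ≠ 0 := by
  have d1 := I5_g1 y
  have d2 := I5_g2 y
  have d := I5_gmul (I5_gconst (-1) y)
    (I5_gadd (I5_gadd (I5_gmul d1 (I5_gmul d2 d2)) (I5_gmul d1 (I5_gmul d1 d1)))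
    (I5_gconst 1 y))
  have e : fderiv ℂ I5_s3 y = _ := d.fderiv
  rw [e]
  intro hc
  obtain ⟨h1, h2⟩ := I5_G_zero hc
  unfold I5_s3 at h
  have h3 : (1 : ℂ) = 0 := by linear_combination -h + (y.1 / 3) * h1 + (y.2 / 3) * h2
  exact one_ne_zero h3

/-! ### coordinate changes -/

lemma I5_na (a b : ℂ) : I5_va (a, b) =
    ((1 + ‖a‖ ^ 2 + ‖a‖ ^ 2 * ‖b‖ ^ 2) ^ 2 * (1 + ‖b‖ ^ 2))⁻¹ := by
  unfold I5_va
  simp only [norm_mul, norm_zero]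
  congr 1
  ring

lemma I5_nb (a b : ℂ) : I5_vb (a, b) =
    ((1 + ‖a‖ ^ 2 + ‖b‖ ^ 2) ^ 2 * (1 + ‖a‖ ^ 2))⁻¹ := by
  unfold I5_vb
  simp only [norm_zero]
  congr 1
  ring

lemma I5_j0 (y : C2) : (fderiv ℂ (fun z : C2 => (z.1, z.2)) y).det = 1 := by
  rw [I5_J (I5_g1 y) (I5_g2 y)]; ring

lemma I5_jA (y : C2) (h : y.2 ≠ 0) :
    (fderiv ℂ (fun z : C2 => (z.1 * z.2, 1 / z.2)) y).det = -1 / y.2 := by
  rw [I5_J (I5_gmul (I5_g1 y) (I5_g2 y)) (I5_ginv (I5_g2 y) h)]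
  field_simp
  ring

lemma I5_jB (y : C2) (h : y.1 ≠ 0) :
    (fderiv ℂ (fun z : C2 => (z.2, 1 / z.1)) y).det = 1 / y.1 ^ 2 := by
  rw [I5_J (I5_g2 y) (I5_ginv (I5_g1 y) h)]
  field_simp
  ring

lemma I5_jC (y : C2) (h : y.1 ≠ 0) (h' : y.2 ≠ 0) :
    (fderiv ℂ (fun z : C2 => (1 / z.2, 1 / (z.1 * z.2))) y).det = -1 / (y.1 ^ 2 * y.2 ^ 3) := by
  rw [I5_J (I5_ginv (I5_g2 y) h') (I5_ginv (I5_gmul (I5_g1 y) (I5_g2 y)) (mul_ne_zero h h'))]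
  field_simp
  ring

lemma I5_jD (y : C2) (h : y.2 ≠ 0) :
    (fderiv ℂ (fun z : C2 => (1 / z.2, z.1)) y).det = 1 / y.2 ^ 2 := by
  rw [I5_J (I5_ginv (I5_g2 y) h) (I5_g1 y)]
  field_simp
  ring

lemma I5_jE (y : C2) (h : y.1 ≠ 0) (h' : y.2 ≠ 0) :
    (fderiv ℂ (fun z : C2 => (z.1 / z.2, 1 / z.1)) y).det = -1 / (y.1 * y.2 ^ 2) := by
  rw [I5_J (I5_gdiv (I5_g1 y) (I5_g2 y) h') (I5_ginv (I5_g1 y) h)]
  field_simp
  ring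

lemma I5_jF (y : C2) (h : y.1 ≠ 0) :
    (fderiv ℂ (fun z : C2 => (1 / z.1, z.2 / z.1)) y).det = -1 / y.1 ^ 3 := by
  rw [I5_J (I5_ginv (I5_g1 y) h) (I5_gdiv (I5_g2 y) (I5_g1 y) h)]
  field_simp
  ring

/-- the cocycle statement for given data -/
def I5_Co (v v' : C2 → ℝ) (s s' : C2 → ℂ) (T : C2 → C2) (y : C2) : Prop :=
  v y = ‖(fderiv ℂ T y).det‖ ^ 2 * v' (T y) ∧ s' (T y) = (fderiv ℂ T y).det * s y

lemma I5_k0 (v : C2 → ℝ) (s : C2 → ℂ) (y : C2) : I5_Co v v s s (fun z => (z.1, z.2)) y := by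
  unfold I5_Co
  rw [I5_j0]
  refine ⟨?_, ?_⟩ <;> simp

lemma I5_kA (y : C2) (h : y.2 ≠ 0) :
    I5_Co I5_va I5_va I5_s0 I5_s1 (fun z => (z.1 * z.2, 1 / z.2)) y ∧
    I5_Co I5_va I5_va I5_s1 I5_s0 (fun z => (z.1 * z.2, 1 / z.2)) y := by
  obtain ⟨a, b⟩ := y
  have h' : b ≠ 0 := h
  have hn : ‖b‖ ≠ 0 := norm_ne_zero_iff.mpr h'
  have hv : I5_va (a, b) = ‖-1 / b‖ ^ 2 * I5_va (a * b, 1 / b) := by
    rw [I5_na, I5_na, norm_div, norm_neg, norm_one, norm_div, norm_one, norm_mul]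
    have h1 := I5_posP a b
    have p1 : 1 + ‖a‖ ^ 2 + ‖a‖ ^ 2 * ‖b‖ ^ 2 ≠ 0 := by positivity
    have p2 : 1 + ‖b‖ ^ 2 ≠ 0 := by positivity
    have e : 1 + (‖a‖ * ‖b‖) ^ 2 + (‖a‖ * ‖b‖) ^ 2 * (1 / ‖b‖) ^ 2 =
        1 + ‖a‖ ^ 2 + ‖a‖ ^ 2 * ‖b‖ ^ 2 := by
      field_simp
      ring
    rw [e]
    field_simp
    ring
  unfold I5_Co
  rw [I5_jA _ h]
  refine ⟨⟨hv, ?_⟩, ⟨hv, ?_⟩⟩
  · show I5_s1 (a * b, 1 / b) = -1 / b * I5_s0 (a, b)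
    simp only [I5_s0, I5_s1]
    field_simp
  · show I5_s0 (a * b, 1 / b) = -1 / b * I5_s1 (a, b)
    simp only [I5_s0, I5_s1]
    field_simp

lemma I5_kB (y : C2) (h : y.1 ≠ 0) :
    I5_Co I5_va I5_vb I5_s0 I5_s2 (fun z => (z.2, 1 / z.1)) y ∧
    I5_Co I5_va I5_vb I5_s1 I5_s3 (fun z => (z.2, 1 / z.1)) y := by
  obtain ⟨a, b⟩ := y
  have h' : a ≠ 0 := h
  have hn : ‖a‖ ≠ 0 := norm_ne_zero_iff.mpr h'
  have hv : I5_va (a, b) = ‖1 / a ^ 2‖ ^ 2 * I5_vb (b, 1 / a) := by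
    rw [I5_na, I5_nb, norm_div, norm_one, norm_div, norm_one, norm_pow]
    have p1 : 1 + ‖a‖ ^ 2 + ‖a‖ ^ 2 * ‖b‖ ^ 2 ≠ 0 := by positivity
    have p2 : 1 + ‖b‖ ^ 2 ≠ 0 := by positivity
    have e : 1 + ‖b‖ ^ 2 + (1 / ‖a‖) ^ 2 =
        (1 + ‖a‖ ^ 2 + ‖a‖ ^ 2 * ‖b‖ ^ 2) / ‖a‖ ^ 2 := by
      field_simp
      ring
    rw [e]
    field_simp
  unfold I5_Co
  rw [I5_jB _ h]
  refine ⟨⟨hv, ?_⟩, ⟨hv, ?_⟩⟩
  · show I5_s2 (b, 1 / a) = 1 / a ^ 2 * I5_s0 (a, b)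
    simp only [I5_s0, I5_s2]
    field_simp
    ring
  · show I5_s3 (b, 1 / a) = 1 / a ^ 2 * I5_s1 (a, b)
    simp only [I5_s3, I5_s1]
    field_simp

lemma I5_kC (y : C2) (h : y.1 ≠ 0 ∧ y.2 ≠ 0) :
    I5_Co I5_va I5_vb I5_s0 I5_s3 (fun z => (1 / z.2, 1 / (z.1 * z.2))) y ∧
    I5_Co I5_va I5_vb I5_s1 I5_s2 (fun z => (1 / z.2, 1 / (z.1 * z.2))) y := by
  obtain ⟨a, b⟩ := y
  have ha : a ≠ 0 := h.1
  have hb : b ≠ 0 := h.2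
  have hn : ‖a‖ ≠ 0 := norm_ne_zero_iff.mpr ha
  have hm : ‖b‖ ≠ 0 := norm_ne_zero_iff.mpr hb
  have hv : I5_va (a, b) = ‖-1 / (a ^ 2 * b ^ 3)‖ ^ 2 * I5_vb (1 / b, 1 / (a * b)) := by
    rw [I5_na, I5_nb, norm_div, norm_neg, norm_one, norm_div, norm_one, norm_div, norm_one,
      norm_mul, norm_mul, norm_pow, norm_pow]
    have p1 : 1 + ‖a‖ ^ 2 + ‖a‖ ^ 2 * ‖b‖ ^ 2 ≠ 0 := by positivity
    have p2 : 1 + ‖b‖ ^ 2 ≠ 0 := by positivity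
    have e : 1 + (1 / ‖b‖) ^ 2 + (1 / (‖a‖ * ‖b‖)) ^ 2 =
        (1 + ‖a‖ ^ 2 + ‖a‖ ^ 2 * ‖b‖ ^ 2) / (‖a‖ ^ 2 * ‖b‖ ^ 2) := by
      field_simp
      ring
    have e' : 1 + (1 / ‖b‖) ^ 2 = (1 + ‖b‖ ^ 2) / ‖b‖ ^ 2 := by
      field_simp
      ring
    rw [e, e']
    field_simp
  unfold I5_Co
  rw [I5_jC _ h.1 h.2]
  refine ⟨⟨hv, ?_⟩, ⟨hv, ?_⟩⟩
  · show I5_s3 (1 / b, 1 / (a * b)) = -1 / (a ^ 2 * b ^ 3) * I5_s0 (a, b)
    simp only [I5_s0, I5_s3]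
    field_simp
  · show I5_s2 (1 / b, 1 / (a * b)) = -1 / (a ^ 2 * b ^ 3) * I5_s1 (a, b)
    simp only [I5_s1, I5_s2]
    field_simp
    ring

lemma I5_kD (y : C2) (h : y.2 ≠ 0) :
    I5_Co I5_vb I5_va I5_s2 I5_s0 (fun z => (1 / z.2, z.1)) y ∧
    I5_Co I5_vb I5_va I5_s3 I5_s1 (fun z => (1 / z.2, z.1)) y := by
  obtain ⟨a, b⟩ := y
  have hb : b ≠ 0 := h
  have hm : ‖b‖ ≠ 0 := norm_ne_zero_iff.mpr hb
  have hv : I5_vb (a, b) = ‖1 / b ^ 2‖ ^ 2 * I5_va (1 / b, a) := by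
    rw [I5_na, I5_nb, norm_div, norm_one, norm_div, norm_one, norm_pow]
    have p1 : 1 + ‖a‖ ^ 2 + ‖b‖ ^ 2 ≠ 0 := by positivity
    have p2 : 1 + ‖a‖ ^ 2 ≠ 0 := by positivity
    have e : 1 + (1 / ‖b‖) ^ 2 + (1 / ‖b‖) ^ 2 * ‖a‖ ^ 2 =
        (1 + ‖a‖ ^ 2 + ‖b‖ ^ 2) / ‖b‖ ^ 2 := by
      field_simp
      ring
    rw [e]
    field_simp
  unfold I5_Co
  rw [I5_jD _ h]
  refine ⟨⟨hv, ?_⟩, ⟨hv, ?_⟩⟩
  · show I5_s0 (1 / b, a) = 1 / b ^ 2 * I5_s2 (a, b)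
    simp only [I5_s0, I5_s2]
    field_simp
    ring
  · show I5_s1 (1 / b, a) = 1 / b ^ 2 * I5_s3 (a, b)
    simp only [I5_s1, I5_s3]
    field_simp

lemma I5_kE (y : C2) (h : y.1 ≠ 0 ∧ y.2 ≠ 0) :
    I5_Co I5_vb I5_va I5_s2 I5_s1 (fun z => (z.1 / z.2, 1 / z.1)) y ∧
    I5_Co I5_vb I5_va I5_s3 I5_s0 (fun z => (z.1 / z.2, 1 / z.1)) y := by
  obtain ⟨a, b⟩ := y
  have ha : a ≠ 0 := h.1
  have hb : b ≠ 0 := h.2
  have hn : ‖a‖ ≠ 0 := norm_ne_zero_iff.mpr ha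
  have hm : ‖b‖ ≠ 0 := norm_ne_zero_iff.mpr hb
  have hv : I5_vb (a, b) = ‖-1 / (a * b ^ 2)‖ ^ 2 * I5_va (a / b, 1 / a) := by
    rw [I5_na, I5_nb, norm_div, norm_neg, norm_one, norm_div, norm_div, norm_one, norm_mul,
      norm_pow]
    have p1 : 1 + ‖a‖ ^ 2 + ‖b‖ ^ 2 ≠ 0 := by positivity
    have p2 : 1 + ‖a‖ ^ 2 ≠ 0 := by positivity
    have e : 1 + (‖a‖ / ‖b‖) ^ 2 + (‖a‖ / ‖b‖) ^ 2 * (1 / ‖a‖) ^ 2 =
        (1 + ‖a‖ ^ 2 + ‖b‖ ^ 2) / ‖b‖ ^ 2 := by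
      field_simp
      ring
    have e' : 1 + (1 / ‖a‖) ^ 2 = (1 + ‖a‖ ^ 2) / ‖a‖ ^ 2 := by
      field_simp
      ring
    rw [e, e']
    field_simp
  unfold I5_Co
  rw [I5_jE _ h.1 h.2]
  refine ⟨⟨hv, ?_⟩, ⟨hv, ?_⟩⟩
  · show I5_s1 (a / b, 1 / a) = -1 / (a * b ^ 2) * I5_s2 (a, b)
    simp only [I5_s1, I5_s2]
    field_simp
    ring
  · show I5_s0 (a / b, 1 / a) = -1 / (a * b ^ 2) * I5_s3 (a, b)
    simp only [I5_s0, I5_s3]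
    field_simp

lemma I5_kF (y : C2) (h : y.1 ≠ 0) :
    I5_Co I5_vb I5_vb I5_s2 I5_s3 (fun z => (1 / z.1, z.2 / z.1)) y ∧
    I5_Co I5_vb I5_vb I5_s3 I5_s2 (fun z => (1 / z.1, z.2 / z.1)) y := by
  obtain ⟨a, b⟩ := y
  have h' : a ≠ 0 := h
  have hn : ‖a‖ ≠ 0 := norm_ne_zero_iff.mpr h'
  have hv : I5_vb (a, b) = ‖-1 / a ^ 3‖ ^ 2 * I5_vb (1 / a, b / a) := by
    rw [I5_nb, I5_nb, norm_div, norm_neg, norm_one, norm_div, norm_one, norm_div, norm_pow]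
    have p1 : 1 + ‖a‖ ^ 2 + ‖b‖ ^ 2 ≠ 0 := by positivity
    have p2 : 1 + ‖a‖ ^ 2 ≠ 0 := by positivity
    have e : 1 + (1 / ‖a‖) ^ 2 + (‖b‖ / ‖a‖) ^ 2 =
        (1 + ‖a‖ ^ 2 + ‖b‖ ^ 2) / ‖a‖ ^ 2 := by
      field_simp
      ring
    have e' : 1 + (1 / ‖a‖) ^ 2 = (1 + ‖a‖ ^ 2) / ‖a‖ ^ 2 := by
      field_simp
      ring
    rw [e, e']
    field_simp
  unfold I5_Co
  rw [I5_jF _ h]
  refine ⟨⟨hv, ?_⟩, ⟨hv, ?_⟩⟩
  · show I5_s3 (1 / a, b / a) = -1 / a ^ 3 * I5_s2 (a, b)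
    simp only [I5_s3, I5_s2]
    field_simp
    ring
  · show I5_s2 (1 / a, b / a) = -1 / a ^ 3 * I5_s3 (a, b)
    simp only [I5_s3, I5_s2]
    field_simp
    ring

lemma I5_cs0 : ContDiff ℂ ∞ I5_s0 :=
  (contDiff_const.add (I5_cfst.mul I5_cfst)).add
    ((I5_cfst.mul I5_cfst).mul (I5_csnd.mul (I5_csnd.mul I5_csnd)))
lemma I5_cs1 : ContDiff ℂ ∞ I5_s1 :=
  contDiff_const.mul ((I5_csnd.add ((I5_cfst.mul I5_cfst).mul
    (I5_csnd.mul (I5_csnd.mul I5_csnd)))).add (I5_cfst.mul I5_cfst))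
lemma I5_cs2 : ContDiff ℂ ∞ I5_s2 :=
  (contDiff_const.add (I5_csnd.mul I5_csnd)).add (I5_cfst.mul (I5_cfst.mul I5_cfst))
lemma I5_cs3 : ContDiff ℂ ∞ I5_s3 :=
  contDiff_const.mul (((I5_cfst.mul (I5_csnd.mul I5_csnd)).add
    (I5_cfst.mul (I5_cfst.mul I5_cfst))).add contDiff_const)

theorem I5 : I5_stmt := by
  refine ⟨fun k => ?_, fun k l y hy => ?_, ⟨(0, I), ?_⟩⟩
  · fin_cases k
    · show ContDiff ℝ ∞ (vol0 0) ∧ (∀ y, 0 < vol0 0 y) ∧ ContDiff ℂ ∞ (sec0 0) ∧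
        (∀ y, ∀ ξ : C2, ξ ≠ 0 → 0 < lap (fun z => -(1 / 2) * Real.log (vol0 0 z)) y ξ) ∧
        (∀ y, sec0 0 y = 0 → fderiv ℂ (sec0 0) y ≠ 0)
      rw [I5_v0, I5_e0]
      exact ⟨I5_ca, I5_ppa, I5_cs0, I5_pa, I5_t0⟩
    · show ContDiff ℝ ∞ (vol0 1) ∧ (∀ y, 0 < vol0 1 y) ∧ ContDiff ℂ ∞ (sec0 1) ∧
        (∀ y, ∀ ξ : C2, ξ ≠ 0 → 0 < lap (fun z => -(1 / 2) * Real.log (vol0 1 z)) y ξ) ∧
        (∀ y, sec0 1 y = 0 → fderiv ℂ (sec0 1) y ≠ 0)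
      rw [I5_v1, I5_e1]
      exact ⟨I5_ca, I5_ppa, I5_cs1, I5_pa, I5_t1⟩
    · show ContDiff ℝ ∞ (vol0 2) ∧ (∀ y, 0 < vol0 2 y) ∧ ContDiff ℂ ∞ (sec0 2) ∧
        (∀ y, ∀ ξ : C2, ξ ≠ 0 → 0 < lap (fun z => -(1 / 2) * Real.log (vol0 2 z)) y ξ) ∧
        (∀ y, sec0 2 y = 0 → fderiv ℂ (sec0 2) y ≠ 0)
      rw [I5_v2, I5_e2]
      exact ⟨I5_cb, I5_ppb, I5_cs2, I5_pb, I5_t2⟩
    · show ContDiff ℝ ∞ (vol0 3) ∧ (∀ y, 0 < vol0 3 y) ∧ ContDiff ℂ ∞ (sec0 3) ∧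
        (∀ y, ∀ ξ : C2, ξ ≠ 0 → 0 < lap (fun z => -(1 / 2) * Real.log (vol0 3 z)) y ξ) ∧
        (∀ y, sec0 3 y = 0 → fderiv ℂ (sec0 3) y ≠ 0)
      rw [I5_v3, I5_e3]
      exact ⟨I5_cb, I5_ppb, I5_cs3, I5_pb, I5_t3⟩
  · fin_cases k
    · fin_cases l
      · show I5_Co (vol0 0) (vol0 0) (sec0 0) (sec0 0) (fun z => (z.1, z.2)) y
        exact I5_k0 _ _ y
      · show I5_Co (vol0 0) (vol0 1) (sec0 0) (sec0 1) (fun z => (z.1 * z.2, 1 / z.2)) y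
        rw [I5_v0, I5_v1, I5_e0, I5_e1]
        exact (I5_kA y hy).1
      · show I5_Co (vol0 0) (vol0 2) (sec0 0) (sec0 2) (fun z => (z.2, 1 / z.1)) y
        rw [I5_v0, I5_v2, I5_e0, I5_e2]
        exact (I5_kB y hy).1
      · show I5_Co (vol0 0) (vol0 3) (sec0 0) (sec0 3) (fun z => (1 / z.2, 1 / (z.1 * z.2))) y
        rw [I5_v0, I5_v3, I5_e0, I5_e3]
        exact (I5_kC y hy).1
    · fin_cases l
      · show I5_Co (vol0 1) (vol0 0) (sec0 1) (sec0 0) (fun z => (z.1 * z.2, 1 / z.2)) y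
        rw [I5_v0, I5_v1, I5_e0, I5_e1]
        exact (I5_kA y hy).2
      · show I5_Co (vol0 1) (vol0 1) (sec0 1) (sec0 1) (fun z => (z.1, z.2)) y
        exact I5_k0 _ _ y
      · show I5_Co (vol0 1) (vol0 2) (sec0 1) (sec0 2) (fun z => (1 / z.2, 1 / (z.1 * z.2))) y
        rw [I5_v1, I5_v2, I5_e1, I5_e2]
        exact (I5_kC y hy).2
      · show I5_Co (vol0 1) (vol0 3) (sec0 1) (sec0 3) (fun z => (z.2, 1 / z.1)) y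
        rw [I5_v1, I5_v3, I5_e1, I5_e3]
        exact (I5_kB y hy).2
    · fin_cases l
      · show I5_Co (vol0 2) (vol0 0) (sec0 2) (sec0 0) (fun z => (1 / z.2, z.1)) y
        rw [I5_v2, I5_v0, I5_e2, I5_e0]
        exact (I5_kD y hy).1
      · show I5_Co (vol0 2) (vol0 1) (sec0 2) (sec0 1) (fun z => (z.1 / z.2, 1 / z.1)) y
        rw [I5_v2, I5_v1, I5_e2, I5_e1]
        exact (I5_kE y hy).1
      · show I5_Co (vol0 2) (vol0 2) (sec0 2) (sec0 2) (fun z => (z.1, z.2)) y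
        exact I5_k0 _ _ y
      · show I5_Co (vol0 2) (vol0 3) (sec0 2) (sec0 3) (fun z => (1 / z.1, z.2 / z.1)) y
        rw [I5_v2, I5_v3, I5_e2, I5_e3]
        exact (I5_kF y hy).1
    · fin_cases l
      · show I5_Co (vol0 3) (vol0 0) (sec0 3) (sec0 0) (fun z => (z.1 / z.2, 1 / z.1)) y
        rw [I5_v3, I5_v0, I5_e3, I5_e0]
        exact (I5_kE y hy).2
      · show I5_Co (vol0 3) (vol0 1) (sec0 3) (sec0 1) (fun z => (1 / z.2, z.1)) y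
        rw [I5_v3, I5_v1, I5_e3, I5_e1]
        exact (I5_kD y hy).2
      · show I5_Co (vol0 3) (vol0 2) (sec0 3) (sec0 2) (fun z => (1 / z.1, z.2 / z.1)) y
        rw [I5_v2, I5_v3, I5_e2, I5_e3]
        exact (I5_kF y hy).2
      · show I5_Co (vol0 3) (vol0 3) (sec0 3) (sec0 3) (fun z => (z.1, z.2)) y
        exact I5_k0 _ _ y
  · rw [I5_e2]
    simp [I5_s2]

end

end DMAProblem
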