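import Pool.Agent.helper50.MA.Spec1

/-!
# ma, module A3: second order expansion of circle means, smooth psh functions
-/

set_option autoImplicit false

open MeasureTheory Set Filter Topology Complex
open scoped ContDiff Real

namespace MAP

noncomputable section

/-- differentiation under the integral sign -/
lemma A3_deriv (F F' : ℝ → ℝ → ℝ) (a b : ℝ) (hF : ∀ t, Continuous (F t))
    (hF' : Continuous (Function.uncurry F'))
    (hd : ∀ t θ, HasDerivAt (fun s => F s θ) (F' t θ) t) (t : ℝ) :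
    HasDerivAt (fun s => ∫ θ in a..b, F s θ) (∫ θ in a..b, F' t θ) t := by
  obtain ⟨C, hC⟩ : ∃ C, ∀ s ∈ Metric.closedBall t 1, ∀ θ ∈ uIcc a b, ‖F' s θ‖ ≤ C := by
    have hK : IsCompact (Metric.closedBall t 1 ×ˢ uIcc a b) :=
      (isCompact_closedBall t 1).prod isCompact_uIcc
    obtain ⟨C, hC⟩ := hK.exists_bound_of_continuousOn hF'.continuousOn
    exact ⟨C, fun s hs θ hθ => hC (s, θ) ⟨hs, hθ⟩⟩
  refine (intervalIntegral.hasDerivAt_integral_of_dominated_loc_of_deriv_le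
    (bound := fun _ => C) (s := Metric.closedBall t 1)
    (Metric.closedBall_mem_nhds t one_pos) ?_ ?_ ?_ ?_ ?_ ?_).2
  · exact Eventually.of_forall fun s => (hF s).aestronglyMeasurable
  · exact (hF t).intervalIntegrable a b
  · exact (hF'.comp (by fun_prop : Continuous fun θ : ℝ => (t, θ))).aestronglyMeasurable
  · exact Eventually.of_forall fun θ hθ s hs => hC s hs θ (uIoc_subset_uIcc hθ)
  · exact intervalIntegrable_const
  · exact Eventually.of_forall fun θ _ s _ => hd s θ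

/-- the Laplacian in one variable -/
def A3_L (g : ℂ → ℝ) (z : ℂ) : ℝ :=
  fderiv ℝ (fderiv ℝ g) z 1 1 + fderiv ℝ (fderiv ℝ g) z I I

def A3_E (θ : ℝ) : ℂ := cexp (θ * I)

lemma A3_E_cont : Continuous A3_E := by
  unfold A3_E
  fun_prop

lemma A3_E_eq (θ : ℝ) : A3_E θ = Real.cos θ • (1 : ℂ) + Real.sin θ • I := by
  unfold A3_E
  rw [Complex.exp_mul_I, Complex.real_smul, Complex.real_smul, mul_one, Complex.ofReal_cos,
    Complex.ofReal_sin]

lemma A3_IE_eq (θ : ℝ) : I * A3_E θ = (-Real.sin θ) • (1 : ℂ) + Real.cos θ • I := by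
  rw [A3_E_eq]
  simp only [Complex.real_smul, mul_add, mul_one]
  have h : I * I = -1 := Complex.I_mul_I
  push_cast
  linear_combination (Complex.sin θ) * h

lemma A3_bil (B : ℂ →L[ℝ] ℂ →L[ℝ] ℝ) (θ : ℝ) :
    B (A3_E θ) (A3_E θ) + B (I * A3_E θ) (I * A3_E θ) = B 1 1 + B I I := by
  rw [A3_IE_eq, A3_E_eq]
  simp only [map_add, map_smul, ContinuousLinearMap.add_apply, ContinuousLinearMap.smul_apply,
    smul_eq_mul]
  have h := Real.sin_sq_add_cos_sq θ
  linear_combination (B 1 1 + B I I) * h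

lemma A3_E_deriv (θ : ℝ) : HasDerivAt A3_E (I * A3_E θ) θ := by
  unfold A3_E
  have h1 : HasDerivAt (fun t : ℝ => (t : ℂ) * I) I θ := by
    simpa using (Complex.ofRealCLM.hasDerivAt (x := θ)).mul_const I
  have h2 := h1.cexp
  rw [mul_comm] at h2
  exact h2

section oneVar
variable {g : ℂ → ℝ}

lemma A3_m_deriv (hg : ContDiff ℝ 2 g) (t : ℝ) :
    HasDerivAt (fun s : ℝ => ∫ θ in (0 : ℝ)..(2 * π), g (s * A3_E θ))
      (∫ θ in (0 : ℝ)..(2 * π), fderiv ℝ g (t * A3_E θ) (A3_E θ)) t := by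
  have hc := A3_E_cont
  have hg1 : Continuous (fderiv ℝ g) := hg.continuous_fderiv (by norm_num)
  refine A3_deriv (fun s θ => g (s * A3_E θ)) (fun s θ => fderiv ℝ g (s * A3_E θ) (A3_E θ)) _ _
    ?_ ?_ ?_ t
  · intro s
    exact hg.continuous.comp (by fun_prop)
  · have h1 : Continuous fun p : ℝ × ℝ => fderiv ℝ g (p.1 * A3_E p.2) :=
      hg1.comp (by fun_prop)
    exact h1.clm_apply (hc.comp continuous_snd)
  · intro s θ
    have h1 : HasDerivAt (fun t : ℝ => (t : ℂ) * A3_E θ) (A3_E θ) s := by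
      simpa using (Complex.ofRealCLM.hasDerivAt (x := s)).mul_const (A3_E θ)
    exact ((hg.differentiable (by norm_num)) _).hasFDerivAt.comp_hasDerivAt s h1

lemma A3_fd (hg : ContDiff ℝ 2 g) : ContDiff ℝ 1 (fderiv ℝ g) :=
  hg.fderiv_right (by norm_num)

lemma A3_n_deriv (hg : ContDiff ℝ 2 g) (t : ℝ) :
    HasDerivAt (fun s : ℝ => ∫ θ in (0 : ℝ)..(2 * π), fderiv ℝ g (s * A3_E θ) (A3_E θ))
      (∫ θ in (0 : ℝ)..(2 * π), fderiv ℝ (fderiv ℝ g) (t * A3_E θ) (A3_E θ) (A3_E θ)) t := by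
  have hc := A3_E_cont
  have hg1 : Continuous (fderiv ℝ g) := hg.continuous_fderiv (by norm_num)
  have hg2 : Continuous (fderiv ℝ (fderiv ℝ g)) := (A3_fd hg).continuous_fderiv (by norm_num)
  refine A3_deriv (fun s θ => fderiv ℝ g (s * A3_E θ) (A3_E θ))
    (fun s θ => fderiv ℝ (fderiv ℝ g) (s * A3_E θ) (A3_E θ) (A3_E θ)) _ _ ?_ ?_ ?_ t
  · intro s
    have h1 : Continuous fun θ : ℝ => fderiv ℝ g (s * A3_E θ) := hg1.comp (by fun_prop)
    exact h1.clm_apply hc
  · have h1 : Continuous fun p : ℝ × ℝ => fderiv ℝ (fderiv ℝ g) (p.1 * A3_E p.2) :=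
      hg2.comp (by fun_prop)
    exact (h1.clm_apply (hc.comp continuous_snd)).clm_apply (hc.comp continuous_snd)
  · intro s θ
    have h1 : HasDerivAt (fun t : ℝ => (t : ℂ) * A3_E θ) (A3_E θ) s := by
      simpa using (Complex.ofRealCLM.hasDerivAt (x := s)).mul_const (A3_E θ)
    have h2 := (((A3_fd hg).differentiable (by norm_num)) (s * A3_E θ)).hasFDerivAt.comp_hasDerivAt
      s h1
    have h3 := h2.clm_apply (hasDerivAt_const s (A3_E θ))
    simpa using h3

/-- integration by parts in the angle -/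
lemma A3_parts (hg : ContDiff ℝ 2 g) (t : ℝ) :
    t * ∫ θ in (0 : ℝ)..(2 * π), fderiv ℝ (fderiv ℝ g) (t * A3_E θ) (I * A3_E θ) (I * A3_E θ) =
      ∫ θ in (0 : ℝ)..(2 * π), fderiv ℝ g (t * A3_E θ) (A3_E θ) := by
  have hc := A3_E_cont
  have hg1 : Continuous (fderiv ℝ g) := hg.continuous_fderiv (by norm_num)
  have hg2 : Continuous (fderiv ℝ (fderiv ℝ g)) := (A3_fd hg).continuous_fderiv (by norm_num)
  have c1 : Continuous fun θ : ℝ => fderiv ℝ g (t * A3_E θ) (A3_E θ) := by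
    have h1 : Continuous fun θ : ℝ => fderiv ℝ g (t * A3_E θ) := hg1.comp (by fun_prop)
    exact h1.clm_apply hc
  have c2 : Continuous fun θ : ℝ =>
      fderiv ℝ (fderiv ℝ g) (t * A3_E θ) (I * A3_E θ) (I * A3_E θ) := by
    have h1 : Continuous fun θ : ℝ => fderiv ℝ (fderiv ℝ g) (t * A3_E θ) := hg2.comp (by fun_prop)
    exact (h1.clm_apply (by fun_prop)).clm_apply (by fun_prop)
  have hd : ∀ θ ∈ uIcc (0 : ℝ) (2 * π), HasDerivAt
      (fun θ : ℝ => fderiv ℝ g (t * A3_E θ) (I * A3_E θ))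
      (t * fderiv ℝ (fderiv ℝ g) (t * A3_E θ) (I * A3_E θ) (I * A3_E θ) -
        fderiv ℝ g (t * A3_E θ) (A3_E θ)) θ := by
    intro θ _
    have h1 : HasDerivAt (fun θ : ℝ => (t : ℂ) * A3_E θ) (t * (I * A3_E θ)) θ :=
      (A3_E_deriv θ).const_mul (t : ℂ)
    have h2 := (((A3_fd hg).differentiable (by norm_num)) (t * A3_E θ)).hasFDerivAt.comp_hasDerivAt
      θ h1
    have h4 : HasDerivAt (fun θ : ℝ => I * A3_E θ) (I * (I * A3_E θ)) θ :=
      (A3_E_deriv θ).const_mul I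
    have h3 := h2.clm_apply h4
    have e1 : (t : ℂ) * (I * A3_E θ) = t • (I * A3_E θ) := by rw [Complex.real_smul]
    have e2 : I * (I * A3_E θ) = - A3_E θ := by
      rw [← mul_assoc, Complex.I_mul_I]; ring
    rw [e1, e2] at h3
    have e3 : (fderiv ℝ (fderiv ℝ g) (t * A3_E θ) (t • (I * A3_E θ))) (I * A3_E θ) +
        (fderiv ℝ g (t * A3_E θ)) (-A3_E θ) =
        t * fderiv ℝ (fderiv ℝ g) (t * A3_E θ) (I * A3_E θ) (I * A3_E θ) -
        fderiv ℝ g (t * A3_E θ) (A3_E θ) := by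
      rw [map_smul, map_neg, ContinuousLinearMap.smul_apply, smul_eq_mul]
      ring
    rw [← e3]
    exact h3
  have h0 := intervalIntegral.integral_eq_sub_of_hasDerivAt hd
    (((c2.const_mul t).sub c1).intervalIntegrable _ _)
  have hE : A3_E (2 * π) = A3_E 0 := by
    unfold A3_E
    push_cast
    rw [Complex.exp_two_pi_mul_I]
    simp
  rw [hE, sub_self, intervalIntegral.integral_sub ((c2.const_mul t).intervalIntegrable _ _)
    (c1.intervalIntegrable _ _), intervalIntegral.integral_const_mul] at h0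
  linarith

lemma A3_tn_deriv (hg : ContDiff ℝ 2 g) (t : ℝ) :
    HasDerivAt (fun s : ℝ => s * ∫ θ in (0 : ℝ)..(2 * π), fderiv ℝ g (s * A3_E θ) (A3_E θ))
      (t * ∫ θ in (0 : ℝ)..(2 * π), A3_L g (t * A3_E θ)) t := by
  have hc := A3_E_cont
  have hg2 : Continuous (fderiv ℝ (fderiv ℝ g)) := (A3_fd hg).continuous_fderiv (by norm_num)
  have h1 := (hasDerivAt_id t).mul (A3_n_deriv hg t)
  have c2 : Continuous fun θ : ℝ =>
      fderiv ℝ (fderiv ℝ g) (t * A3_E θ) (I * A3_E θ) (I * A3_E θ) := by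
    have h1 : Continuous fun θ : ℝ => fderiv ℝ (fderiv ℝ g) (t * A3_E θ) := hg2.comp (by fun_prop)
    exact (h1.clm_apply (by fun_prop)).clm_apply (by fun_prop)
  have c3 : Continuous fun θ : ℝ =>
      fderiv ℝ (fderiv ℝ g) (t * A3_E θ) (A3_E θ) (A3_E θ) := by
    have h1 : Continuous fun θ : ℝ => fderiv ℝ (fderiv ℝ g) (t * A3_E θ) := hg2.comp (by fun_prop)
    exact (h1.clm_apply (by fun_prop)).clm_apply (by fun_prop)
  have e : (t * ∫ θ in (0 : ℝ)..(2 * π), A3_L g (t * A3_E θ)) =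
      1 * (∫ θ in (0 : ℝ)..(2 * π), fderiv ℝ g (t * A3_E θ) (A3_E θ)) +
      id t * ∫ θ in (0 : ℝ)..(2 * π), fderiv ℝ (fderiv ℝ g) (t * A3_E θ) (A3_E θ) (A3_E θ) := by
    rw [← A3_parts hg t, id, one_mul, ← mul_add, ← intervalIntegral.integral_add
      (c2.intervalIntegrable _ _) (c3.intervalIntegrable _ _)]
    congr 1
    refine intervalIntegral.integral_congr fun θ _ => ?_
    show A3_L g (t * A3_E θ) = _
    unfold A3_L
    rw [← A3_bil (fderiv ℝ (fderiv ℝ g) (t * A3_E θ)) θ, add_comm]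
  rw [e]
  exact h1

lemma A3_L_cont (hg : ContDiff ℝ 2 g) : Continuous (A3_L g) := by
  have hg2 : Continuous (fderiv ℝ (fderiv ℝ g)) := (A3_fd hg).continuous_fderiv (by norm_num)
  unfold A3_L
  exact ((hg2.clm_apply continuous_const).clm_apply continuous_const).add
    ((hg2.clm_apply continuous_const).clm_apply continuous_const)

/-- second order expansion in one variable -/
lemma A3_one (hg : ContDiff ℝ 2 g) :
    Tendsto (fun t : ℝ => ((∫ θ in (0 : ℝ)..(2 * π), g (t * A3_E θ)) - 2 * π * g 0) / t ^ 2)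
      (𝓝[≠] 0) (𝓝 (2 * π * A3_L g 0 / 4)) := by
  have hc := A3_E_cont
  have hm0 : (∫ θ in (0 : ℝ)..(2 * π), g (((0 : ℝ) : ℂ) * A3_E θ)) = 2 * π * g 0 := by
    simp
  have hcm : Continuous fun t : ℝ => ∫ θ in (0 : ℝ)..(2 * π), g (t * A3_E θ) :=
    continuous_iff_continuousAt.mpr fun t => (A3_m_deriv hg t).continuousAt
  have hcn : Continuous fun t : ℝ => ∫ θ in (0 : ℝ)..(2 * π), fderiv ℝ g (t * A3_E θ) (A3_E θ) :=
    continuous_iff_continuousAt.mpr fun t => (A3_n_deriv hg t).continuousAt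
  have hcL : Continuous fun t : ℝ => ∫ θ in (0 : ℝ)..(2 * π), A3_L g (t * A3_E θ) := by
    have h1 : Continuous (Function.uncurry fun (t θ : ℝ) => A3_L g (t * A3_E θ)) :=
      (A3_L_cont hg).comp (by fun_prop)
    exact intervalIntegral.continuous_parametric_intervalIntegral_of_continuous' h1 _ _
  have hne : ∀ᶠ t : ℝ in 𝓝[≠] 0, t ≠ 0 := eventually_mem_nhdsWithin
  refine HasDerivAt.lhopital_zero_nhdsNE
    (f' := fun t => ∫ θ in (0 : ℝ)..(2 * π), fderiv ℝ g (t * A3_E θ) (A3_E θ))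
    (g' := fun t => 2 * t) ?_ ?_ ?_ ?_ ?_ ?_
  · exact Eventually.of_forall fun t => (A3_m_deriv hg t).sub_const _
  · refine Eventually.of_forall fun t => ?_
    simpa using hasDerivAt_pow 2 t
  · filter_upwards [hne] with t ht
    exact mul_ne_zero two_ne_zero ht
  · have h1 := (hcm.sub (continuous_const (y := 2 * π * g 0))).tendsto 0
    rw [Pi.sub_apply] at h1
    simp only [hm0, sub_self] at h1
    exact h1.mono_left nhdsWithin_le_nhds
  · have h1 : Tendsto (fun t : ℝ => t ^ 2) (𝓝 0) (𝓝 (0 ^ 2)) := (continuous_pow 2).tendsto 0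
    rw [zero_pow two_ne_zero] at h1
    exact h1.mono_left nhdsWithin_le_nhds
  · have key : Tendsto (fun t : ℝ =>
        (t * ∫ θ in (0 : ℝ)..(2 * π), fderiv ℝ g (t * A3_E θ) (A3_E θ)) / (2 * t ^ 2))
        (𝓝[≠] 0) (𝓝 (2 * π * A3_L g 0 / 4)) := by
      refine HasDerivAt.lhopital_zero_nhdsNE
        (f' := fun t => t * ∫ θ in (0 : ℝ)..(2 * π), A3_L g (t * A3_E θ))
        (g' := fun t => 4 * t) ?_ ?_ ?_ ?_ ?_ ?_
      · exact Eventually.of_forall fun t => A3_tn_deriv hg t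
      · refine Eventually.of_forall fun t => ?_
        have := (hasDerivAt_pow 2 t).const_mul 2
        have e : 2 * ((2 : ℕ) * t ^ (2 - 1)) = 4 * t := by norm_num; ring
        rw [e] at this
        exact this
      · filter_upwards [hne] with t ht
        exact mul_ne_zero four_ne_zero ht
      · have h1 := (continuous_id.mul hcn).tendsto 0
        simp only [Pi.mul_apply, id, zero_mul] at h1
        exact h1.mono_left nhdsWithin_le_nhds
      · have h1 : Tendsto (fun t : ℝ => 2 * t ^ 2) (𝓝 0) (𝓝 (2 * 0 ^ 2)) :=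
          (continuous_const.mul (continuous_pow 2)).tendsto 0
        rw [zero_pow two_ne_zero, mul_zero] at h1
        exact h1.mono_left nhdsWithin_le_nhds
      · have h1 := (hcL.tendsto 0).mono_left (nhdsWithin_le_nhds (s := {0}ᶜ))
        have h2 : (∫ θ in (0 : ℝ)..(2 * π), A3_L g (((0 : ℝ) : ℂ) * A3_E θ)) = 2 * π * A3_L g 0 := by
          simp
        rw [h2] at h1
        refine (h1.div_const 4).congr' ?_
        filter_upwards [hne] with t ht
        rw [mul_comm 4 t, mul_div_mul_left _ _ ht]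
    refine key.congr' ?_
    filter_upwards [hne] with t ht
    have e : 2 * t ^ 2 = t * (2 * t) := by ring
    rw [e, mul_div_mul_left _ _ ht]

/-- the sub-mean value inequality in one variable -/
lemma A3_sub (hg : ContDiff ℝ 2 g) (h : ∀ z : ℂ, ‖z‖ ≤ 1 → 0 ≤ A3_L g z) :
    2 * π * g 0 ≤ ∫ θ in (0 : ℝ)..(2 * π), g (A3_E θ) := by
  have hn : ∀ t : ℝ, t ∈ Icc (0 : ℝ) 1 →
      0 ≤ t * ∫ θ in (0 : ℝ)..(2 * π), fderiv ℝ g (t * A3_E θ) (A3_E θ) := by
    have hmono : MonotoneOn (fun t : ℝ =>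
        t * ∫ θ in (0 : ℝ)..(2 * π), fderiv ℝ g (t * A3_E θ) (A3_E θ)) (Icc 0 1) := by
      refine monotoneOn_of_deriv_nonneg (convex_Icc 0 1) ?_ ?_ ?_
      · exact fun t _ => (A3_tn_deriv hg t).continuousAt.continuousWithinAt
      · exact fun t _ => (A3_tn_deriv hg t).differentiableAt.differentiableWithinAt
      · intro t ht
        rw [interior_Icc] at ht
        rw [(A3_tn_deriv hg t).deriv]
        refine mul_nonneg ht.1.le (intervalIntegral.integral_nonneg (by positivity) fun θ _ => ?_)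
        refine h _ ?_
        unfold A3_E
        rw [norm_mul, Complex.norm_exp_ofReal_mul_I, mul_one, Complex.norm_real,
          Real.norm_of_nonneg ht.1.le]
        exact ht.2.le
    intro t ht
    have h1 := hmono (left_mem_Icc.mpr zero_le_one) ht ht.1
    simpa using h1
  have hmono : MonotoneOn (fun t : ℝ => ∫ θ in (0 : ℝ)..(2 * π), g (t * A3_E θ)) (Icc 0 1) := by
    refine monotoneOn_of_deriv_nonneg (convex_Icc 0 1) ?_ ?_ ?_
    · exact fun t _ => (A3_m_deriv hg t).continuousAt.continuousWithinAt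
    · exact fun t _ => (A3_m_deriv hg t).differentiableAt.differentiableWithinAt
    · intro t ht
      rw [interior_Icc] at ht
      rw [(A3_m_deriv hg t).deriv]
      exact nonneg_of_mul_nonneg_right (hn t ⟨ht.1.le, ht.2.le⟩) ht.1
  have h1 := hmono (left_mem_Icc.mpr zero_le_one) (right_mem_Icc.mpr zero_le_one) zero_le_one
  simpa using h1

end oneVar

/-- cut off on a complex line -/
lemma A3_red (U : Set C2) (u : C2 → ℝ) (hU : IsOpen U) (hu : ContDiffOn ℝ 2 u U) (x ξ : C2)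
    (ρ : ℝ) (hρ : 0 < ρ) (hd : ∀ ζ : ℂ, ‖ζ‖ ≤ ρ → x + ζ • ξ ∈ U) :
    ∃ g : ℂ → ℝ, ContDiff ℝ 2 g ∧ (∀ ζ : ℂ, ‖ζ‖ ≤ ρ → g ζ = u (x + ζ • ξ)) ∧
      ∀ ζ : ℂ, ‖ζ‖ ≤ ρ → A3_L g ζ = lap u (x + ζ • ξ) ξ := by
  set L : ℂ →L[ℝ] C2 := (ContinuousLinearMap.toSpanSingleton ℂ ξ).restrictScalars ℝ with hL
  have hLa : ∀ a : ℂ, L a = a • ξ := fun a => rfl
  set W : Set ℂ := (fun ζ : ℂ => x + ζ • ξ) ⁻¹' U with hW
  have hcont : Continuous fun ζ : ℂ => x + ζ • ξ := by fun_prop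
  have hWo : IsOpen W := hU.preimage hcont
  have hKW : Metric.closedBall (0 : ℂ) ρ ⊆ W := by
    intro ζ hζ
    exact hd ζ (by simpa using hζ)
  obtain ⟨δ, hδ, hδW⟩ := (isCompact_closedBall (0 : ℂ) ρ).exists_cthickening_subset_open hWo hKW
  rw [cthickening_closedBall hδ.le hρ.le] at hδW
  let f : ContDiffBump (0 : ℂ) := ⟨ρ + δ / 2, ρ + δ, by linarith, by linarith⟩
  have hg0 : ContDiffOn ℝ 2 (fun ζ : ℂ => u (x + ζ • ξ)) W := by
    have h1 : ContDiff ℝ 2 fun ζ : ℂ => x + ζ • ξ := by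
      have : (fun ζ : ℂ => x + ζ • ξ) = fun ζ => x + L ζ := rfl
      rw [this]
      exact contDiff_const.add L.contDiff
    exact hu.comp h1.contDiffOn (fun ζ hζ => hζ)
  have hf1 : ∀ ζ : ℂ, ‖ζ‖ ≤ ρ → (fun z => f z * u (x + z • ξ)) =ᶠ[𝓝 ζ] fun z => u (x + z • ξ) := by
    intro ζ hζ
    have hnb : Metric.ball (0 : ℂ) (ρ + δ / 2) ∈ 𝓝 ζ := by
      refine Metric.isOpen_ball.mem_nhds ?_
      rw [mem_ball_zero_iff]
      linarith
    filter_upwards [hnb] with z hz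
    rw [f.one_of_mem_closedBall (Metric.ball_subset_closedBall hz), one_mul]
  refine ⟨fun ζ => f ζ * u (x + ζ • ξ), ?_, ?_, ?_⟩
  · refine contDiff_iff_contDiffAt.mpr fun z => ?_
    by_cases hzW : z ∈ W
    · exact f.contDiffAt.mul (hg0.contDiffAt (hWo.mem_nhds hzW))
    · have hz1 : z ∉ tsupport f := by
        intro hz1
        rw [f.tsupport_eq] at hz1
        refine hzW (hδW ?_)
        have h2 : f.rOut = ρ + δ := rfl
        rw [h2] at hz1
        rwa [add_comm] at hz1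
      have hz2 : (fun _ : ℂ => (0 : ℝ)) =ᶠ[𝓝 z] fun ζ : ℂ => f ζ * u (x + ζ • ξ) := by
        filter_upwards [(isClosed_tsupport f).isOpen_compl.mem_nhds hz1] with w hw
        rw [image_eq_zero_of_notMem_tsupport hw, zero_mul]
      exact contDiffAt_const.congr_of_eventuallyEq hz2.symm
  · intro ζ hζ
    exact (hf1 ζ hζ).self_of_nhds
  · intro ζ hζ
    have hgW : ∀ z ∈ W, fderiv ℝ (fun ζ : ℂ => u (x + ζ • ξ)) z = (fderiv ℝ u (x + z • ξ)).comp L := by
      intro z hz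
      have h1 : HasFDerivAt (fun ζ : ℂ => x + ζ • ξ) L z := by
        have : (fun ζ : ℂ => x + ζ • ξ) = fun ζ => x + L ζ := rfl
        rw [this]
        exact L.hasFDerivAt.const_add x
      have h2 : HasFDerivAt u (fderiv ℝ u (x + z • ξ)) (x + z • ξ) :=
        ((hu.contDiffAt (hU.mem_nhds hz)).differentiableAt (by norm_num)).hasFDerivAt
      exact (h2.comp z h1).fderiv
    have hζW : ζ ∈ W := hd ζ hζ
    have e1 : fderiv ℝ (fderiv ℝ fun ζ => f ζ * u (x + ζ • ξ)) ζ =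
        fderiv ℝ (fun z => (fderiv ℝ u (x + z • ξ)).comp L) ζ := by
      refine Filter.EventuallyEq.fderiv_eq ?_
      refine ((hf1 ζ hζ).fderiv).trans ?_
      filter_upwards [hWo.mem_nhds hζW] with z hz
      exact hgW z hz
    have e2 : ∀ a b : ℂ, fderiv ℝ (fun z => (fderiv ℝ u (x + z • ξ)).comp L) ζ a b =
        fderiv ℝ (fderiv ℝ u) (x + ζ • ξ) (a • ξ) (b • ξ) := by
      intro a b
      have h1 : HasFDerivAt (fun ζ : ℂ => x + ζ • ξ) L ζ := by
        have : (fun ζ : ℂ => x + ζ • ξ) = fun ζ => x + L ζ := rfl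
        rw [this]
        exact L.hasFDerivAt.const_add x
      have h2 : HasFDerivAt (fderiv ℝ u) (fderiv ℝ (fderiv ℝ u) (x + ζ • ξ)) (x + ζ • ξ) := by
        have h3 : ContDiffAt ℝ 1 (fderiv ℝ u) (x + ζ • ξ) :=
          (hu.contDiffAt (hU.mem_nhds hζW)).fderiv_right (by norm_num)
        exact (h3.differentiableAt (by norm_num)).hasFDerivAt
      have h4 := (h2.comp ζ h1).clm_comp (hasFDerivAt_const L ζ)
      have h5 : fderiv ℝ (fun z => (fderiv ℝ u (x + z • ξ)).comp L) ζ = _ := h4.fderiv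
      rw [h5]
      simp [hLa]
    unfold A3_L
    rw [e1, e2, e2]
    unfold lap D2
    rw [one_smul]

lemma A3_mean_eq (g : ℂ → ℝ) (u : C2 → ℝ) (x ξ : C2) (ρ t : ℝ) (ht : |t| ≤ ρ)
    (hg : ∀ ζ : ℂ, ‖ζ‖ ≤ ρ → g ζ = u (x + ζ • ξ)) :
    mean u x (t • ξ) = (2 * π)⁻¹ * ∫ θ in (0 : ℝ)..(2 * π), g (t * A3_E θ) := by
  unfold mean
  congr 1
  refine intervalIntegral.integral_congr fun θ _ => ?_
  show u (x + cexp (θ * I) • (t • ξ)) = g (t * A3_E θ)
  rw [hg]
  · congr 2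
    unfold A3_E
    rw [mul_comm (t : ℂ), mul_smul]
    congr 1
  · unfold A3_E
    rw [norm_mul, Complex.norm_exp_ofReal_mul_I, mul_one, Complex.norm_real]
    exact ht

theorem A3 : A3_stmt := by
  have part1 : ∀ (U : Set C2) (s : C2 → ℝ), IsOpen U → ContDiffOn ℝ 2 s U → ∀ x ∈ U, ∀ ξ : C2,
      Tendsto (fun t : ℝ => (mean s x (t • ξ) - s x) / t ^ 2) (𝓝[≠] 0) (𝓝 (lap s x ξ / 4)) := by
    intro U s hU hs x hx ξ
    obtain ⟨ρ, hρ, hρU⟩ : ∃ ρ > 0, ∀ ζ : ℂ, ‖ζ‖ ≤ ρ → x + ζ • ξ ∈ U := by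
      have hcont : Continuous fun ζ : ℂ => x + ζ • ξ := by fun_prop
      have h1 : (fun ζ : ℂ => x + ζ • ξ) ⁻¹' U ∈ 𝓝 (0 : ℂ) := by
        refine (hU.preimage hcont).mem_nhds ?_
        simpa using hx
      obtain ⟨ρ, hρ, h2⟩ := Metric.nhds_basis_closedBall.mem_iff.mp h1
      exact ⟨ρ, hρ, fun ζ hζ => h2 (by simpa using hζ)⟩
    obtain ⟨g, hg, hgu, hgL⟩ := A3_red U s hU hs x ξ ρ hρ hρU
    have h0 : g 0 = s x := by
      have := hgu 0 (by simpa using hρ.le)
      simpa using this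
    have hL0 : A3_L g 0 = lap s x ξ := by
      have := hgL 0 (by simpa using hρ.le)
      simpa using this
    have h1 := (A3_one hg).const_mul ((2 * π)⁻¹)
    have hpi : (2 * π) ≠ 0 := by positivity
    have e : (2 * π)⁻¹ * (2 * π * A3_L g 0 / 4) = lap s x ξ / 4 := by
      rw [hL0]
      field_simp
    rw [e] at h1
    refine h1.congr' ?_
    have hsm : ∀ᶠ t : ℝ in 𝓝[≠] 0, |t| ≤ ρ := by
      refine nhdsWithin_le_nhds ?_
      filter_upwards [Metric.closedBall_mem_nhds (0 : ℝ) hρ] with t ht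
      simpa using ht
    filter_upwards [hsm] with t ht
    rw [A3_mean_eq g s x ξ ρ t ht hgu, h0]
    field_simp
  refine ⟨part1, ?_⟩
  intro U u hU hu
  constructor
  · intro hpsh x hx ξ
    have h1 := part1 U u hU hu x hx ξ
    have h2 : 0 ≤ lap u x ξ / 4 := by
      refine ge_of_tendsto h1 ?_
      obtain ⟨ρ, hρ, hρU⟩ : ∃ ρ > 0, ∀ ζ : ℂ, ‖ζ‖ ≤ ρ → x + ζ • ξ ∈ U := by
        have hcont : Continuous fun ζ : ℂ => x + ζ • ξ := by fun_prop
        have h1 : (fun ζ : ℂ => x + ζ • ξ) ⁻¹' U ∈ 𝓝 (0 : ℂ) := by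
          refine (hU.preimage hcont).mem_nhds ?_
          simpa using hx
        obtain ⟨ρ, hρ, h2⟩ := Metric.nhds_basis_closedBall.mem_iff.mp h1
        exact ⟨ρ, hρ, fun ζ hζ => h2 (by simpa using hζ)⟩
      have hsm : ∀ᶠ t : ℝ in 𝓝[≠] 0, |t| ≤ ρ := by
        refine nhdsWithin_le_nhds ?_
        filter_upwards [Metric.closedBall_mem_nhds (0 : ℝ) hρ] with t ht
        simpa using ht
      filter_upwards [hsm] with t ht
      refine div_nonneg ?_ (sq_nonneg t)
      rw [sub_nonneg]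
      refine hpsh.2 x (t • ξ) ?_
      rintro y ⟨ζ, hζ, rfl⟩
      have e : ζ • (t • ξ) = (ζ * (t : ℂ)) • ξ := by
        rw [mul_smul]
        congr 1
      rw [e]
      refine hρU _ ?_
      rw [norm_mul, Complex.norm_real, Real.norm_eq_abs]
      calc ‖ζ‖ * |t| ≤ 1 * |t| := mul_le_mul_of_nonneg_right hζ (abs_nonneg t)
        _ ≤ ρ := by rw [one_mul]; exact ht
    linarith
  · intro hlap
    refine ⟨hu.continuousOn, fun x ξ hdisc => ?_⟩
    have hd : ∀ ζ : ℂ, ‖ζ‖ ≤ 1 → x + ζ • ξ ∈ U := fun ζ hζ => hdisc ⟨ζ, hζ, rfl⟩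
    obtain ⟨g, hg, hgu, hgL⟩ := A3_red U u hU hu x ξ 1 one_pos hd
    have h0 : g 0 = u x := by
      have := hgu 0 (by simp)
      simpa using this
    have h1 := A3_sub hg (fun z hz => by rw [hgL z hz]; exact hlap _ (hd z hz) ξ)
    have h2 := A3_mean_eq g u x ξ 1 1 (by simp) hgu
    rw [one_smul] at h2
    rw [h2, ← h0]
    have hpi : 0 < 2 * π := by positivity
    rw [← div_eq_inv_mul, le_div_iff₀ hpi]
    simpa [mul_comm] using h1

end

end MAP
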