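import Pool.Agent.helper50.MA.Spec2

/-!
# ma, module D1: the measures of continuous omega-psh functions
-/

set_option autoImplicit false

open MeasureTheory Set Filter Topology Complex
open scoped ContDiff Real

namespace MAP

noncomputable section

section general
variable {X : Type} [TopologicalSpace X] [CompactSpace X] [T2Space X] [MeasurableSpace X]
  [BorelSpace X]

lemma D1_int (ν : Measure X) [IsFiniteMeasure ν] (h : X → ℝ) (hh : Continuous h) :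
    Integrable h ν :=
  hh.integrable_of_hasCompactSupport (HasCompactSupport.of_compactSpace h)

omit [CompactSpace X] [T2Space X] [TopologicalSpace X] [BorelSpace X] in
lemma D1_bd (ν : Measure X) [IsFiniteMeasure ν] (f : X → ℝ) (ε : ℝ) (h : ∀ x, |f x| ≤ ε) :
    |∫ x, f x ∂ν| ≤ ε * ν.real univ := by
  have := norm_integral_le_of_norm_le_const (μ := ν) (f := f) (C := ε) (Eventually.of_forall h)
  simpa using this

lemma D1_close (ν : Measure X) [IsFiniteMeasure ν] (h h' : X → ℝ) (hh : Continuous h)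
    (hh' : Continuous h') (ε : ℝ) (hε : ∀ x, |h x - h' x| ≤ ε) :
    |(∫ x, h x ∂ν) - ∫ x, h' x ∂ν| ≤ ε * ν.real univ := by
  rw [← integral_sub (D1_int ν h hh) (D1_int ν h' hh')]
  exact D1_bd ν _ ε hε

omit [TopologicalSpace X] [CompactSpace X] [T2Space X] [MeasurableSpace X] [BorelSpace X] in
lemma D1_unif_close {u u' : ℕ → X → ℝ} {f : X → ℝ} (h : KS.Unif u f) (h' : KS.Unif u' f) (ε : ℝ)
    (hε : 0 < ε) : ∀ᶠ n in atTop, ∀ x, |u n x - u' n x| ≤ ε := by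
  filter_upwards [h (ε / 2) (half_pos hε), h' (ε / 2) (half_pos hε)] with n h1 h2 x
  have h3 := h1 x
  have h4 := h2 x
  rw [abs_sub_comm] at h4
  calc |u n x - u' n x| = |(u n x - f x) + (f x - u' n x)| := by ring_nf
    _ ≤ |u n x - f x| + |f x - u' n x| := abs_add_le _ _
    _ ≤ ε := by linarith

omit [TopologicalSpace X] [CompactSpace X] [T2Space X] [MeasurableSpace X] [BorelSpace X] in
lemma D1_unif_cauchy {u : ℕ → X → ℝ} {f : X → ℝ} (h : KS.Unif u f) (ε : ℝ)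
    (hε : 0 < ε) : ∃ N : ℕ, ∀ n ≥ N, ∀ m ≥ N, ∀ x, |u n x - u m x| ≤ ε := by
  obtain ⟨N, hN⟩ := eventually_atTop.mp (h (ε / 2) (half_pos hε))
  refine ⟨N, fun n hn m hm x => ?_⟩
  have h3 := hN n hn x
  have h4 := hN m hm x
  rw [abs_sub_comm] at h4
  calc |u n x - u m x| = |(u n x - f x) + (f x - u m x)| := by ring_nf
    _ ≤ |u n x - f x| + |f x - u m x| := abs_add_le _ _
    _ ≤ ε := by linarith

end general

section surface
variable {X : Type} [TopologicalSpace X] [CompactSpace X] [T2Space X] [SecondCountableTopology X]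
  [MeasurableSpace X] [BorelSpace X]

/-- mixed estimate for smooth test functions -/
lemma D1_smooth (h5 : S5_stmt) (h7 : S7_stmt) (h9 : S9_stmt) (h10 : S10_stmt) (K : KS X)
    (h : X → ℝ) (hh : K.Smo h) : ∃ C : ℝ, 0 ≤ C ∧ ∀ u ∈ K.PS, ∀ u' ∈ K.PS, ∀ v ∈ K.PS,
      ∀ v' ∈ K.PS, ∀ ε : ℝ, (∀ x, |u x - u' x| ≤ ε) → (∀ x, |v x - v' x| ≤ ε) → 0 ≤ ε →
      |(∫ x, h x ∂K.Ms u v) - ∫ x, h x ∂K.Ms u' v'| ≤ C * ε := by
  obtain ⟨C0, hC0, hH⟩ := h5 X K h hh
  have hHp := (hH C0 le_rfl).1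
  have h0 : (fun _ => (0 : ℝ)) ∈ K.PS := (h9 X K).1 0
  set V : ℝ := (K.Ms (fun _ => 0) (fun _ => 0)).real univ with hV
  have hV0 : 0 ≤ V := measureReal_nonneg
  -- one variable
  have one : ∀ u ∈ K.PS, ∀ u' ∈ K.PS, ∀ v ∈ K.PS, ∀ ε : ℝ, (∀ x, |u x - u' x| ≤ ε) → 0 ≤ ε →
      |(∫ x, h x ∂K.Ms u v) - ∫ x, h x ∂K.Ms u' v| ≤ 2 * C0 * V * ε := by
    intro u hu u' hu' v hv ε hε hε0
    have hst := h7 X K u hu u' hu' v hv (fun x => h x / C0) hHp
    haveI := ((h9 X K).2.2.2.1 (fun x => h x / C0) hHp v hv).1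
    haveI := ((h9 X K).2.2.2.1 (fun _ => 0) h0 v hv).1
    have b1 := D1_bd (K.Ms (fun x => h x / C0) v) (fun x => u x - u' x) ε hε
    have b2 := D1_bd (K.Ms (fun _ => 0) v) (fun x => u x - u' x) ε hε
    rw [h10 X K _ hHp v hv] at b1
    rw [h10 X K _ h0 v hv] at b2
    rw [integral_div, integral_div] at hst
    have e : (∫ x, h x ∂K.Ms u v) - ∫ x, h x ∂K.Ms u' v =
        C0 * ((∫ x, (u x - u' x) ∂K.Ms (fun x => h x / C0) v) -
          ∫ x, (u x - u' x) ∂K.Ms (fun _ => 0) v) := by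
      rw [← hst]
      field_simp
    rw [e, abs_mul, abs_of_pos hC0]
    calc C0 * |(∫ x, (u x - u' x) ∂K.Ms (fun x => h x / C0) v) -
          ∫ x, (u x - u' x) ∂K.Ms (fun _ => 0) v| ≤ C0 * (ε * V + ε * V) := by
          refine mul_le_mul_of_nonneg_left ?_ hC0.le
          exact (abs_sub _ _).trans (add_le_add b1 b2)
      _ = 2 * C0 * V * ε := by ring
  refine ⟨4 * C0 * V, by positivity, ?_⟩
  intro u hu u' hu' v hv v' hv' ε hε hε' hε0
  have a1 := one u hu u' hu' v hv ε hε hε0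
  have a2 := one v hv v' hv' u' hu' ε hε' hε0
  rw [((h9 X K).2.2.2.1 v hv u' hu').2, ((h9 X K).2.2.2.1 v' hv' u' hu').2] at a2
  calc |(∫ x, h x ∂K.Ms u v) - ∫ x, h x ∂K.Ms u' v'|
      = |((∫ x, h x ∂K.Ms u v) - ∫ x, h x ∂K.Ms u' v) +
        ((∫ x, h x ∂K.Ms u' v) - ∫ x, h x ∂K.Ms u' v')| := by ring_nf
    _ ≤ _ := abs_add_le _ _
    _ ≤ 2 * C0 * V * ε + 2 * C0 * V * ε := add_le_add a1 a2
    _ = 4 * C0 * V * ε := by ring

/-- equicontinuity for continuous test functions -/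
lemma D1_cont (h3 : S3_stmt) (h5 : S5_stmt) (h6 : S6_stmt) (h7 : S7_stmt) (h9 : S9_stmt)
    (h10 : S10_stmt) (K : KS X) (h : X → ℝ) (hh : Continuous h) (δ : ℝ) (hδ : 0 < δ) :
    ∃ ε : ℝ, 0 < ε ∧ ∀ u ∈ K.PS, ∀ u' ∈ K.PS, ∀ v ∈ K.PS,
      ∀ v' ∈ K.PS, (∀ x, |u x - u' x| ≤ ε) → (∀ x, |v x - v' x| ≤ ε) →
      |(∫ x, h x ∂K.Ms u v) - ∫ x, h x ∂K.Ms u' v'| ≤ δ := by
  set V : ℝ := (K.Ms (fun _ => 0) (fun _ => 0)).real univ with hV
  have hV0 : 0 ≤ V := measureReal_nonneg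
  obtain ⟨h', hs, hc⟩ := h6 X K h hh (δ / (3 * (V + 1))) (by positivity)
  have hs' : Continuous h' := (h3 X K).2.2.2.1 h' hs
  obtain ⟨C, hC, hC'⟩ := D1_smooth h5 h7 h9 h10 K h' hs
  refine ⟨δ / (3 * (C + 1)), by positivity, ?_⟩
  intro u hu u' hu' v hv v' hv' hε hε'
  haveI := ((h9 X K).2.2.2.1 u hu v hv).1
  haveI := ((h9 X K).2.2.2.1 u' hu' v' hv').1
  have b1 := D1_close (K.Ms u v) h h' hh hs' _ hc
  have b2 := D1_close (K.Ms u' v') h h' hh hs' _ hc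
  rw [h10 X K u hu v hv] at b1
  rw [h10 X K u' hu' v' hv'] at b2
  have b3 := hC' u hu u' hu' v hv v' hv' _ hε hε' (by positivity)
  have c1 : δ / (3 * (V + 1)) * V ≤ δ / 3 := by
    rw [div_mul_eq_mul_div, div_le_div_iff₀ (by positivity) (by norm_num)]
    nlinarith
  have c2 : C * (δ / (3 * (C + 1))) ≤ δ / 3 := by
    rw [mul_div_assoc', div_le_div_iff₀ (by positivity) (by norm_num)]
    nlinarith
  rw [abs_le] at *
  constructor <;> linarith [b1.1, b1.2, b2.1, b2.2, b3.1, b3.2]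

lemma D1_diff (h3 : S3_stmt) (h5 : S5_stmt) (h6 : S6_stmt) (h7 : S7_stmt) (h9 : S9_stmt)
    (h10 : S10_stmt) (K : KS X) (f g : X → ℝ) (u u' v v' : ℕ → X → ℝ) (hu : ∀ n, u n ∈ K.PS)
    (hu' : ∀ n, u' n ∈ K.PS) (hv : ∀ n, v n ∈ K.PS) (hv' : ∀ n, v' n ∈ K.PS)
    (huf : KS.Unif u f) (huf' : KS.Unif u' f) (hvg : KS.Unif v g) (hvg' : KS.Unif v' g)
    (h : X → ℝ) (hh : Continuous h) :
    Tendsto (fun n => (∫ x, h x ∂K.Ms (u n) (v n)) - ∫ x, h x ∂K.Ms (u' n) (v' n)) atTop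
      (𝓝 0) := by
  rw [Metric.tendsto_atTop]
  intro δ hδ
  obtain ⟨ε, hε, he⟩ := D1_cont h3 h5 h6 h7 h9 h10 K h hh (δ / 2) (half_pos hδ)
  obtain ⟨N, hN⟩ := eventually_atTop.mp ((D1_unif_close huf huf' ε hε).and
    (D1_unif_close hvg hvg' ε hε))
  refine ⟨N, fun n hn => ?_⟩
  rw [Real.dist_eq, sub_zero]
  exact lt_of_le_of_lt (he _ (hu n) _ (hu' n) _ (hv n) _ (hv' n) (hN n hn).1 (hN n hn).2)
    (half_lt_self hδ)

lemma D1_approx (hR3 : R3_stmt) (K : KS X) (f : X → ℝ) (hf : f ∈ K.C0) :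
    ∃ u : ℕ → X → ℝ, (∀ n, u n ∈ K.PS) ∧ KS.Unif u f := by
  choose u hu hu' using fun n : ℕ => hR3 X K f hf (1 / ((n : ℝ) + 1)) (by positivity)
  refine ⟨u, hu, fun ε hε => ?_⟩
  have h1 := tendsto_one_div_add_atTop_nhds_zero_nat (𝕜 := ℝ)
  filter_upwards [h1.eventually (gt_mem_nhds hε)] with n hn x
  exact (hu' n x).trans hn.le

lemma D1_exists (h3 : S3_stmt) (h5 : S5_stmt) (h6 : S6_stmt) (h7 : S7_stmt) (h9 : S9_stmt)
    (h10 : S10_stmt) (hR3 : R3_stmt) (K : KS X) (f g : X → ℝ) (hf : f ∈ K.C0) (hg : g ∈ K.C0) :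
    ∃ ν : Measure X, K.IsMc f g ν := by
  obtain ⟨u, hu, huf⟩ := D1_approx hR3 K f hf
  obtain ⟨v, hv, hvg⟩ := D1_approx hR3 K g hg
  have hfin : ∀ n, IsFiniteMeasure (K.Ms (u n) (v n)) := fun n =>
    ((h9 X K).2.2.2.1 _ (hu n) _ (hv n)).1
  -- limits exist
  have hlim : ∀ h : X → ℝ, Continuous h → ∃ l : ℝ,
      Tendsto (fun n => ∫ x, h x ∂K.Ms (u n) (v n)) atTop (𝓝 l) := by
    intro h hh
    refine cauchySeq_tendsto_of_complete ?_
    rw [Metric.cauchySeq_iff]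
    intro δ hδ
    obtain ⟨ε, hε, he⟩ := D1_cont h3 h5 h6 h7 h9 h10 K h hh (δ / 2) (half_pos hδ)
    obtain ⟨N1, hN1⟩ := D1_unif_cauchy huf ε hε
    obtain ⟨N2, hN2⟩ := D1_unif_cauchy hvg ε hε
    refine ⟨max N1 N2, fun m hm n hn => ?_⟩
    rw [Real.dist_eq]
    exact lt_of_le_of_lt (he _ (hu m) _ (hu n) _ (hv m) _ (hv n)
      (hN1 m (le_of_max_le_left hm) n (le_of_max_le_left hn))
      (hN2 m (le_of_max_le_right hm) n (le_of_max_le_right hn))) (half_lt_self hδ)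
  choose! l hl using hlim
  let Λ : CompactlySupportedContinuousMap X ℝ →ₚ[ℝ] ℝ :=
    { toFun := fun h => l h
      map_add' := by
        intro a b
        have h1 := (hl _ a.continuous).add (hl _ b.continuous)
        have h2 := hl (⇑(a + b)) (a + b).continuous
        refine tendsto_nhds_unique h2 (h1.congr fun n => ?_)
        haveI := hfin n
        rw [← integral_add (D1_int _ _ a.continuous) (D1_int _ _ b.continuous)]
        rfl
      map_smul' := by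
        intro c a
        have h1 := (hl _ a.continuous).const_mul c
        have h2 := hl (⇑(c • a)) (c • a).continuous
        refine tendsto_nhds_unique h2 (h1.congr fun n => ?_)
        rw [← integral_const_mul]
        rfl
      monotone' := by
        intro a b hab
        refine le_of_tendsto_of_tendsto' (hl _ a.continuous) (hl _ b.continuous) fun n => ?_
        haveI := hfin n
        exact integral_mono (D1_int _ _ a.continuous) (D1_int _ _ b.continuous) hab }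
  refine ⟨RealRMK.rieszMeasure Λ, inferInstance, ?_⟩
  intro u' v' hu' hv' huf' hvg' h hh
  have h1 := D1_diff h3 h5 h6 h7 h9 h10 K f g u' u v' v hu' hu hv' hv huf' huf hvg' hvg h hh
  have h2 := h1.add (hl h hh)
  rw [zero_add] at h2
  have h3' := RealRMK.integral_rieszMeasure Λ ⟨⟨h, hh⟩, HasCompactSupport.of_compactSpace h⟩
  have h4 : (∫ x, h x ∂(RealRMK.rieszMeasure Λ)) = l h := h3'
  rw [h4]
  refine h2.congr fun n => ?_
  ring

lemma D1_unique (hR3 : R3_stmt) (K : KS X) (f g : X → ℝ) (hf : f ∈ K.C0) (hg : g ∈ K.C0)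
    (ν ν' : Measure X) (h : K.IsMc f g ν) (h' : K.IsMc f g ν') : ν = ν' := by
  obtain ⟨u, hu, huf⟩ := D1_approx hR3 K f hf
  obtain ⟨v, hv, hvg⟩ := D1_approx hR3 K g hg
  haveI := h.1
  haveI := h'.1
  refine ext_of_forall_integral_eq_of_IsFiniteMeasure fun k => ?_
  exact tendsto_nhds_unique (h.2 u v hu hv huf hvg k k.continuous)
    (h'.2 u v hu hv huf hvg k k.continuous)

end surface

theorem D1 (h3 : S3_stmt) (h5 : S5_stmt) (h6 : S6_stmt) (h7 : S7_stmt) (h9 : S9_stmt)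
    (h10 : S10_stmt) (hR3 : R3_stmt) : D1_stmt := by
  intro X _ _ _ _ _ _ K
  have key : ∀ f ∈ K.C0, ∀ g ∈ K.C0, K.IsMc f g (K.M f g) := by
    intro f hf g hg
    have hex := D1_exists h3 h5 h6 h7 h9 h10 hR3 K f g hf hg
    unfold KS.M
    rw [dif_pos hex]
    exact Classical.choose_spec hex
  refine ⟨fun f hf g hg => ⟨key f hf g hg, fun ν hν =>
    D1_unique hR3 K f g hf hg ν _ hν (key f hf g hg)⟩, ?_⟩
  intro f hf g hg
  have hPC : K.PS ⊆ K.C0 := (h3 X K).2.2.2.2.2.2.2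
  refine D1_unique hR3 K f g (hPC hf) (hPC hg) _ _ (key f (hPC hf) g (hPC hg)) ?_
  refine ⟨((h9 X K).2.2.2.1 f hf g hg).1, ?_⟩
  intro u v hu hv huf hvg h hh
  have h1 := D1_diff h3 h5 h6 h7 h9 h10 K f g u (fun _ => f) v (fun _ => g) hu (fun _ => hf) hv
    (fun _ => hg) huf (fun ε hε => Eventually.of_forall fun _ x => by simpa using hε.le) hvg
    (fun ε hε => Eventually.of_forall fun _ x => by simpa using hε.le) h hh
  have h2 := h1.add_const (∫ x, h x ∂K.Ms f g)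
  rw [zero_add] at h2
  refine h2.congr fun n => ?_
  ring

end

end MAP
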