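import Pool.Agent.helper17.MA.D1

/-!
# ma, module D3: Stokes and the energy inequality for continuous omega-psh functions
-/

set_option autoImplicit false

open MeasureTheory Set Filter Topology Complex
open scoped ContDiff Real

namespace MAP

noncomputable section

/-- joint convergence of functions and measures -/
lemma D3_conv {X : Type} [TopologicalSpace X] [CompactSpace X] [T2Space X]
    [SecondCountableTopology X] [MeasurableSpace X] [BorelSpace X] (h9 : S9_stmt)
    (h10 : S10_stmt) (K : KS X) (f g h : X → ℝ) (ν : Measure X) (hν : K.IsMc f g ν)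
    (u v w : ℕ → X → ℝ) (hu : ∀ n, u n ∈ K.PS) (hv : ∀ n, v n ∈ K.PS)
    (hw : ∀ n, Continuous (w n)) (hh : Continuous h) (huf : KS.Unif u f) (hvg : KS.Unif v g)
    (hwh : KS.Unif w h) :
    Tendsto (fun n => ∫ x, w n x ∂K.Ms (u n) (v n)) atTop (𝓝 (∫ x, h x ∂ν)) := by
  have h1 := hν.2 u v hu hv huf hvg h hh
  have h2 : Tendsto (fun n => (∫ x, w n x ∂K.Ms (u n) (v n)) - ∫ x, h x ∂K.Ms (u n) (v n)) atTop
      (𝓝 0) := by
    set V : ℝ := (K.Ms (fun _ => 0) (fun _ => 0)).real univ with hV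
    have hV0 : 0 ≤ V := measureReal_nonneg
    rw [Metric.tendsto_atTop]
    intro δ hδ
    obtain ⟨N, hN⟩ := eventually_atTop.mp (hwh (δ / (V + 1) / 2) (by positivity))
    refine ⟨N, fun n hn => ?_⟩
    rw [Real.dist_eq, sub_zero]
    haveI := ((h9 X K).2.2.2.1 _ (hu n) _ (hv n)).1
    have b := D1_close (K.Ms (u n) (v n)) (w n) h (hw n) hh _ (hN n hn)
    rw [h10 X K _ (hu n) _ (hv n)] at b
    refine lt_of_le_of_lt b ?_
    have e : δ / (V + 1) / 2 * V = δ / 2 * (V / (V + 1)) := by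
      field_simp
    have hq : V / (V + 1) ≤ 1 := by
      rw [div_le_one (by positivity)]
      linarith
    rw [e]
    calc δ / 2 * (V / (V + 1)) ≤ δ / 2 * 1 := mul_le_mul_of_nonneg_left hq (by positivity)
      _ < δ := by linarith
  have h3 := h2.add h1
  rw [zero_add] at h3
  exact h3.congr fun n => by ring

theorem D3 (h1 : D1_stmt) (h3 : S3_stmt) (h7 : S7_stmt) (h8 : S8_stmt) (h9 : S9_stmt)
    (h10 : S10_stmt) (hR3 : R3_stmt) : D3_stmt := by
  intro X _ _ _ _ _ _ K
  have h0 : (fun _ => (0 : ℝ)) ∈ K.PS := (h9 X K).1 0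
  have hPC : K.PS ⊆ K.C0 := (h3 X K).2.2.2.2.2.2.2
  have hMc : ∀ f ∈ K.C0, ∀ g ∈ K.C0, K.IsMc f g (K.M f g) := fun f hf g hg =>
    ((h1 X K).1 f hf g hg).1
  have hcont : ∀ f ∈ K.PS, Continuous f := fun f hf => (hPC hf).1
  have hconst : KS.Unif (fun _ : ℕ => fun _ : X => (0 : ℝ)) (fun _ => 0) :=
    fun ε hε => Eventually.of_forall fun _ x => by simpa using hε.le
  constructor
  · intro f hf f' hf' g hg h hh
    obtain ⟨a, ha, haf⟩ := D1_approx hR3 K f hf
    obtain ⟨a', ha', haf'⟩ := D1_approx hR3 K f' hf'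
    obtain ⟨b, hb, hbg⟩ := D1_approx hR3 K g hg
    obtain ⟨w, hw, hwh⟩ := D1_approx hR3 K h hh
    have c1 := D3_conv h9 h10 K f g h _ (hMc f hf g hg) a b w ha hb (fun n => hcont _ (hw n))
      hh.1 haf hbg hwh
    have c2 := D3_conv h9 h10 K f' g h _ (hMc f' hf' g hg) a' b w ha' hb
      (fun n => hcont _ (hw n)) hh.1 haf' hbg hwh
    have hd : KS.Unif (fun n x => a n x - a' n x) (fun x => f x - f' x) := by
      intro ε hε
      filter_upwards [haf (ε / 2) (half_pos hε), haf' (ε / 2) (half_pos hε)] with n q1 q2 x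
      have r1 := abs_le.mp (q1 x)
      have r2 := abs_le.mp (q2 x)
      rw [abs_le]
      constructor <;> linarith [r1.1, r1.2, r2.1, r2.2]
    have c3 := D3_conv h9 h10 K h g (fun x => f x - f' x) _ (hMc h hh g hg) w b
      (fun n x => a n x - a' n x) hw hb (fun n => (hcont _ (ha n)).sub (hcont _ (ha' n)))
      (hf.1.sub hf'.1) hwh hbg hd
    have c4 := D3_conv h9 h10 K (fun _ => 0) g (fun x => f x - f' x) _
      (hMc _ (hPC h0) g hg) (fun _ => fun _ => 0) b
      (fun n x => a n x - a' n x) (fun _ => h0) hb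
      (fun n => (hcont _ (ha n)).sub (hcont _ (ha' n)))
      (hf.1.sub hf'.1) hconst hbg hd
    refine tendsto_nhds_unique (c1.sub c2) ((c3.sub c4).congr fun n => ?_)
    exact (h7 X K _ (ha n) _ (ha' n) _ (hb n) _ (hw n)).symm
  · intro f hf g hg
    obtain ⟨a, ha, haf⟩ := D1_approx hR3 K f hf
    obtain ⟨b, hb, hbg⟩ := D1_approx hR3 K g hg
    have c1 := D3_conv h9 h10 K f g f _ (hMc f hf g hg) a b a ha hb (fun n => hcont _ (ha n))
      hf.1 haf hbg haf
    have c2 := D3_conv h9 h10 K (fun _ => 0) g f _ (hMc _ (hPC h0) g hg) (fun _ => fun _ => 0) b a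
      (fun _ => h0) hb (fun n => hcont _ (ha n)) hf.1 hconst hbg haf
    exact le_of_tendsto_of_tendsto' c1 c2 fun n => h8 X K _ (ha n) _ (hb n)

end

end MAP
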