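import Pool.Agent.helper17.MA.D1

/-!
# ma, module G4: weak convergence of the measures of the soft truncations to the area measure
of the curve
-/

set_option autoImplicit false

open MeasureTheory Set Filter Topology Complex
open scoped ContDiff Real

namespace MAP

noncomputable section

/-! ## continuity of densities -/

lemma G4_mul_cont {a b : C2 → ℝ} {U : Set C2} (hU : IsOpen U) (ha : Continuous a)
    (hs : tsupport a ⊆ U) (hb : ContinuousOn b U) : Continuous fun y => a y * b y := by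
  rw [continuous_iff_continuousAt]
  intro y
  by_cases hy : y ∈ U
  · exact ha.continuousAt.mul (hb.continuousAt (hU.mem_nhds hy))
  · have h1 : y ∉ tsupport a := fun h => hy (hs h)
    have h2 : (fun y => a y * b y) =ᶠ[𝓝 y] fun _ : C2 => (0 : ℝ) := by
      filter_upwards [(isClosed_tsupport a).isOpen_compl.mem_nhds h1] with z hz
      rw [image_eq_zero_of_notMem_tsupport hz, zero_mul]
    exact continuousAt_const.congr h2.symm

lemma G4_D2_cont {φ : C2 → ℝ} (h : ContDiff ℝ ∞ φ) (ξ η : C2) :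
    Continuous (fun y => D2 φ y ξ η) := by
  have h1 : ContDiff ℝ ∞ (fderiv ℝ φ) := h.fderiv_right (by simp)
  have h2 : Continuous (fderiv ℝ (fderiv ℝ φ)) := h1.continuous_fderiv (by simp)
  exact (h2.clm_apply continuous_const).clm_apply continuous_const

lemma G4_D2_zero {φ : C2 → ℝ} (ξ η y : C2) (hy : y ∉ tsupport φ) : D2 φ y ξ η = 0 := by
  have h1 : y ∉ tsupport (fderiv ℝ (fderiv ℝ φ)) := fun h =>
    hy (tsupport_fderiv_subset ℝ (tsupport_fderiv_subset ℝ h))
  unfold D2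
  rw [image_eq_zero_of_notMem_tsupport h1]
  rfl

lemma G4_D2_contOn {ρ : C2 → ℝ} {U : Set C2} (hU : IsOpen U) (h : ContDiffOn ℝ ∞ ρ U)
    (ξ η : C2) : ContinuousOn (fun y => D2 ρ y ξ η) U := by
  have h1 : ContDiffOn ℝ ∞ (fderiv ℝ ρ) U := h.fderiv_of_isOpen hU (by simp)
  have h2 : ContinuousOn (fderiv ℝ (fderiv ℝ ρ)) U :=
    h1.continuousOn_fderiv_of_isOpen hU (by simp)
  exact (h2.clm_apply continuousOn_const).clm_apply continuousOn_const

lemma G4_tsup {φ a : C2 → ℝ} (h : ∀ y, y ∉ tsupport φ → a y = 0) : tsupport a ⊆ tsupport φ := by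
  refine closure_minimal ?_ (isClosed_tsupport φ)
  intro y hy
  by_contra hc
  exact hy (h y hc)

lemma G4_dens_cont {φ ρ : C2 → ℝ} {U : Set C2} (hU : IsOpen U) (hφ : ContDiff ℝ ∞ φ)
    (hs : tsupport φ ⊆ U) (hρ : ContDiffOn ℝ ∞ ρ U) : Continuous (dens φ ρ) := by
  have cA : Continuous (hA φ) := (G4_D2_cont hφ _ _).add (G4_D2_cont hφ _ _)
  have cC : Continuous (hC φ) := (G4_D2_cont hφ _ _).add (G4_D2_cont hφ _ _)
  have cB : Continuous (hB φ) := (G4_D2_cont hφ _ _).add (G4_D2_cont hφ _ _)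
  have cB' : Continuous (hB' φ) := (G4_D2_cont hφ _ _).sub (G4_D2_cont hφ _ _)
  have sA : tsupport (hA φ) ⊆ U := (G4_tsup fun y hy => by
    unfold hA lap; rw [G4_D2_zero _ _ _ hy, G4_D2_zero _ _ _ hy, add_zero]).trans hs
  have sC : tsupport (hC φ) ⊆ U := (G4_tsup fun y hy => by
    unfold hC lap; rw [G4_D2_zero _ _ _ hy, G4_D2_zero _ _ _ hy, add_zero]).trans hs
  have sB : tsupport (hB φ) ⊆ U := (G4_tsup fun y hy => by
    unfold hB; rw [G4_D2_zero _ _ _ hy, G4_D2_zero _ _ _ hy, add_zero]).trans hs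
  have sB' : tsupport (hB' φ) ⊆ U := (G4_tsup fun y hy => by
    unfold hB'; rw [G4_D2_zero _ _ _ hy, G4_D2_zero _ _ _ hy, sub_zero]).trans hs
  have dA : ContinuousOn (hA ρ) U := (G4_D2_contOn hU hρ _ _).add (G4_D2_contOn hU hρ _ _)
  have dC : ContinuousOn (hC ρ) U := (G4_D2_contOn hU hρ _ _).add (G4_D2_contOn hU hρ _ _)
  have dB : ContinuousOn (hB ρ) U := (G4_D2_contOn hU hρ _ _).add (G4_D2_contOn hU hρ _ _)
  have dB' : ContinuousOn (hB' ρ) U := (G4_D2_contOn hU hρ _ _).sub (G4_D2_contOn hU hρ _ _)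
  have m1 := G4_mul_cont hU cA sA dC
  have m2 := G4_mul_cont hU cC sC dA
  have m3 := G4_mul_cont hU cB sB dB
  have m4 := G4_mul_cont hU cB' sB' dB'
  exact (((m1.add m2).sub (m3.const_mul 2)).sub (m4.const_mul 2)).div_const _

lemma G4_dens_zero {φ ρ : C2 → ℝ} (y : C2) (hy : y ∉ tsupport φ) : dens φ ρ y = 0 := by
  unfold dens hA hC hB hB' lap
  simp only [G4_D2_zero _ _ _ hy]
  simp

/-! ## convergence in a chart -/

lemma G4_alg (r a ε : ℝ) (ha : 0 ≤ a) (hε : 0 < ε) :
    r + 1 / 2 * Real.log (a * Real.exp (-2 * r) + ε) =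
      1 / 2 * Real.log (a + ε * Real.exp (2 * r)) := by
  have h1 : a * Real.exp (-2 * r) + ε = Real.exp (-2 * r) * (a + ε * Real.exp (2 * r)) := by
    have : Real.exp (-2 * r) * Real.exp (2 * r) = 1 := by
      rw [← Real.exp_add]; simp
    linear_combination (-ε) * this
  have h2 : 0 < a + ε * Real.exp (2 * r) := by positivity
  rw [h1, Real.log_mul (Real.exp_pos _).ne' h2.ne', Real.log_exp]
  ring

lemma G4_conv {U : Set C2} (hU : IsOpen U) (D : C2 → ℝ) (hD : Continuous D)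
    (hDc : HasCompactSupport D) (hDs : tsupport D ⊆ U) (ρ : C2 → ℝ) (hρ : ContinuousOn ρ U)
    (a : C2 → ℝ) (ha : Continuous a) (ha0 : ∀ y, 0 ≤ a y) (hapos : ∀ᵐ y : C2, 0 < a y)
    (hint : Integrable (fun y => (1 / 2 * Real.log (a y)) * D y)) :
    Tendsto (fun Λ : ℝ => ∫ y, (ρ y + 1 / 2 * Real.log (a y * Real.exp (-2 * ρ y) +
      Real.exp (-2 * Λ))) * D y) atTop (𝓝 (∫ y, (1 / 2 * Real.log (a y)) * D y)) := by
  obtain ⟨B, hB⟩ := hDc.isCompact.exists_bound_of_continuousOn (hρ.mono hDs)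
  obtain ⟨A, hA⟩ := hDc.isCompact.exists_bound_of_continuousOn (f := a) ha.continuousOn
  set C : ℝ := 1 / 2 * |Real.log (A + Real.exp (2 * B))| with hC
  have hDint : Integrable D := hD.integrable_of_hasCompactSupport hDc
  refine tendsto_integral_filter_of_dominated_convergence
    (fun y => |(1 / 2 * Real.log (a y)) * D y| + C * |D y|) ?_ ?_ ?_ ?_
  · refine Eventually.of_forall fun Λ => ?_
    have h1 : ContinuousOn (fun y => ρ y + 1 / 2 * Real.log (a y * Real.exp (-2 * ρ y) +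
        Real.exp (-2 * Λ))) U := by
      refine hρ.add (continuousOn_const.mul (ContinuousOn.log ?_ ?_))
      · exact (ha.continuousOn.mul (Real.continuous_exp.comp_continuousOn
          (continuousOn_const.mul hρ))).add continuousOn_const
      · intro y _
        have := ha0 y
        positivity
    have h2 := G4_mul_cont hU hD hDs h1
    refine (h2.congr fun y => ?_).aestronglyMeasurable
    ring
  · filter_upwards [eventually_ge_atTop (0 : ℝ)] with Λ hΛ
    filter_upwards [hapos] with y hy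
    by_cases hyD : y ∈ tsupport D
    · rw [G4_alg _ _ _ (ha0 y) (Real.exp_pos _), Real.norm_eq_abs, abs_mul, abs_mul (1 / 2 * _),
        ← add_mul]
      refine mul_le_mul_of_nonneg_right ?_ (abs_nonneg _)
      have hε1 : Real.exp (-2 * Λ) ≤ 1 := by
        rw [Real.exp_le_one_iff]; linarith
      have hρB : Real.exp (2 * ρ y) ≤ Real.exp (2 * B) := by
        refine Real.exp_le_exp.mpr ?_
        have := (abs_le.mp (hB y hyD)).2
        linarith
      have haA : a y ≤ A := (abs_le.mp (hA y hyD)).2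
      have e1 : a y ≤ a y + Real.exp (-2 * Λ) * Real.exp (2 * ρ y) := by
        have := (Real.exp_pos (-2 * Λ)).le
        have := (Real.exp_pos (2 * ρ y)).le
        nlinarith
      have e2 : a y + Real.exp (-2 * Λ) * Real.exp (2 * ρ y) ≤ A + Real.exp (2 * B) := by
        have : Real.exp (-2 * Λ) * Real.exp (2 * ρ y) ≤ 1 * Real.exp (2 * B) :=
          mul_le_mul hε1 hρB (Real.exp_pos _).le zero_le_one
        linarith
      have l1 := Real.log_le_log hy e1
      have l2 := Real.log_le_log (lt_of_lt_of_le hy e1) e2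
      have l3 : |Real.log (a y + Real.exp (-2 * Λ) * Real.exp (2 * ρ y))| ≤
          |Real.log (a y)| + |Real.log (A + Real.exp (2 * B))| := by
        rw [abs_le]
        constructor
        · have := neg_abs_le (Real.log (a y))
          have := abs_nonneg (Real.log (A + Real.exp (2 * B)))
          linarith
        · have := le_abs_self (Real.log (A + Real.exp (2 * B)))
          have := abs_nonneg (Real.log (a y))
          linarith
      rw [hC, abs_mul, abs_mul, abs_of_pos (by norm_num : (0 : ℝ) < 1 / 2), ← mul_add]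
      exact mul_le_mul_of_nonneg_left l3 (by norm_num)
    · rw [image_eq_zero_of_notMem_tsupport hyD]
      simp
  · exact hint.abs.add (hDint.abs.const_mul C)
  · filter_upwards [hapos] with y hy
    refine Tendsto.mul_const _ ?_
    have h1 : Tendsto (fun Λ : ℝ => Real.exp (-2 * Λ)) atTop (𝓝 0) :=
      Real.tendsto_exp_atBot.comp ((tendsto_const_mul_atBot_of_neg (by norm_num)).mpr tendsto_id)
    have h2 : Tendsto (fun Λ : ℝ => a y + Real.exp (-2 * Λ) * Real.exp (2 * ρ y)) atTop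
        (𝓝 (a y)) := by
      have := (h1.mul_const (Real.exp (2 * ρ y))).const_add (a y)
      simpa using this
    have h3 := ((Real.continuousAt_log hy.ne').tendsto.comp h2).const_mul (1 / 2)
    refine h3.congr fun Λ => ?_
    exact (G4_alg _ _ _ (ha0 y) (Real.exp_pos _)).symm

/-! ## functions with support in a chart -/

section surface
variable {X : Type} [TopologicalSpace X] [CompactSpace X] [T2Space X]

open Classical in
/-- a function with support in chart `i`, read on all of `ℂ²` -/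
def G4_ext (K : KS X) (i : Fin K.n) (g : X → ℝ) : C2 → ℝ :=
  Set.indicator (K.e i).target (K.lo i g)

lemma G4_ext_on (K : KS X) (i : Fin K.n) (g : X → ℝ) (y : C2) (hy : y ∈ (K.e i).target) :
    G4_ext K i g y = g ((K.e i).symm y) := by
  unfold G4_ext
  rw [Set.indicator_of_mem hy]
  rfl

lemma G4_nsq_cont (c : C2) : Continuous fun x : C2 => nsq (x - c) := by
  unfold nsq
  fun_prop

lemma G4_cbal_closed (c : C2) (r : ℝ) : IsClosed (cbal c r) :=
  isClosed_le (G4_nsq_cont c) continuous_const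

lemma G4_cbal_compact (c : C2) (r : ℝ) : IsCompact (cbal c r) := by
  refine Metric.isCompact_of_isClosed_isBounded (G4_cbal_closed c r) ?_
  refine (Metric.isBounded_closedBall (x := c) (r := |r|)).subset ?_
  intro x hx
  rw [mem_closedBall_iff_norm]
  have h1 : ‖(x - c).1‖ ^ 2 + ‖(x - c).2‖ ^ 2 ≤ r ^ 2 := hx
  have h2 : ‖(x - c).1‖ ≤ |r| := by
    rw [← abs_of_nonneg (norm_nonneg (x - c).1)]
    exact sq_le_sq.mp (by nlinarith [sq_nonneg ‖(x - c).2‖])
  have h3 : ‖(x - c).2‖ ≤ |r| := by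
    rw [← abs_of_nonneg (norm_nonneg (x - c).2)]
    exact sq_le_sq.mp (by nlinarith [sq_nonneg ‖(x - c).1‖])
  rw [Prod.norm_def]
  exact max_le h2 h3

lemma G4_cbal_sub (K : KS X) (i : Fin K.n) :
    cbal (K.c i) (3 / 4 * K.R i) ⊆ (K.e i).target := by
  intro y hy
  refine K.ball_sub i ?_
  have h1 : nsq (y - K.c i) ≤ (3 / 4 * K.R i) ^ 2 := hy
  show nsq (y - K.c i) ≤ K.R i ^ 2
  nlinarith [K.R_pos i]

lemma G4_ext_tsup (K : KS X) (i : Fin K.n) (g : X → ℝ)
    (hg : ∀ x, g x ≠ 0 → x ∈ (K.e i).source ∧ K.e i x ∈ bal (K.c i) (3 / 4 * K.R i)) :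
    tsupport (G4_ext K i g) ⊆ cbal (K.c i) (3 / 4 * K.R i) := by
  refine closure_minimal ?_ (G4_cbal_closed _ _)
  intro y hy
  have hyt : y ∈ (K.e i).target := by
    by_contra hc
    exact hy (Set.indicator_of_notMem hc _)
  have h1 : g ((K.e i).symm y) ≠ 0 := by
    rw [← G4_ext_on K i g y hyt]; exact hy
  have h2 := (hg _ h1).2
  rw [(K.e i).right_inv hyt] at h2
  have h3 : nsq (y - K.c i) < (3 / 4 * K.R i) ^ 2 := h2
  exact h3.le

lemma G4_ext_smooth (K : KS X) (i : Fin K.n) (g : X → ℝ) (hgs : K.Smo g)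
    (hg : ∀ x, g x ≠ 0 → x ∈ (K.e i).source ∧ K.e i x ∈ bal (K.c i) (3 / 4 * K.R i)) :
    ContDiff ℝ ∞ (G4_ext K i g) := by
  refine contDiff_iff_contDiffAt.mpr fun y => ?_
  by_cases hy : y ∈ (K.e i).target
  · have h1 : ContDiffAt ℝ ∞ (K.lo i g) y :=
      (hgs i).contDiffAt ((K.e i).open_target.mem_nhds hy)
    refine h1.congr_of_eventuallyEq ?_
    filter_upwards [(K.e i).open_target.mem_nhds hy] with z hz
    exact G4_ext_on K i g z hz
  · have h1 : y ∉ cbal (K.c i) (3 / 4 * K.R i) := fun h => hy (G4_cbal_sub K i h)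
    refine (contDiffAt_const (c := (0 : ℝ))).congr_of_eventuallyEq ?_
    filter_upwards [(G4_cbal_closed _ _).isOpen_compl.mem_nhds h1] with z hz
    refine image_eq_zero_of_notMem_tsupport fun h => hz (G4_ext_tsup K i g hg h)

lemma G4_ext_compact (K : KS X) (i : Fin K.n) (g : X → ℝ)
    (hg : ∀ x, g x ≠ 0 → x ∈ (K.e i).source ∧ K.e i x ∈ bal (K.c i) (3 / 4 * K.R i)) :
    HasCompactSupport (G4_ext K i g) :=
  (G4_cbal_compact _ _).of_isClosed_subset (isClosed_tsupport _) (G4_ext_tsup K i g hg)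

end surface

/-! ## integrals -/

section measure
variable {X : Type} [TopologicalSpace X] [CompactSpace X] [T2Space X] [SecondCountableTopology X]
  [MeasurableSpace X] [BorelSpace X]

lemma G4_isM (h1 : S1_stmt) (K : KS X) (f g : X → ℝ) (hf : f ∈ K.PS) (hg : g ∈ K.PS) :
    K.IsM f g (K.Ms f g) := by
  have hex := h1 X K f hf g hg
  unfold KS.Ms
  rw [dif_pos hex]
  exact Classical.choose_spec hex

lemma G4_bdd (g : X → ℝ) (hg : Continuous g) : ∃ B : ℝ, ∀ x, |g x| ≤ B := by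
  obtain ⟨B, hB⟩ := isCompact_univ.exists_bound_of_continuousOn (f := g) hg.continuousOn
  exact ⟨B, fun x => hB x (mem_univ x)⟩

/-- the integral against `Ms f 0` of a function with support in a chart, after integration by
parts -/
lemma G4_chart (h1 : S1_stmt) (h2 : S2_stmt) (h9 : S9_stmt) (hB7 : B7_stmt) (K : KS X)
    (i : Fin K.n) (f : X → ℝ) (hf : f ∈ K.PS) (g : X → ℝ) (hgs : K.Smo g) (hgc : Continuous g)
    (hg : ∀ x, g x ≠ 0 → x ∈ (K.e i).source ∧ K.e i x ∈ bal (K.c i) (3 / 4 * K.R i)) :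
    ∫ x, g x ∂K.Ms f (fun _ => 0) =
      ∫ y, K.pot i f y * dens (G4_ext K i g) (K.ρ i) y := by
  have h0 : (fun _ => (0 : ℝ)) ∈ K.PS := (h9 X K).1 0
  have e1 := ((h2 X K f hf (fun _ => 0) h0 _ (G4_isM h1 K f _ hf h0)).2 i g hgc.measurable
    (G4_bdd g hgc) (fun x hx => by
      by_contra hc
      exact hx (hg x hc).1)).2
  have hpot0 : K.pot i (fun _ => 0) = K.ρ i := by
    funext y
    unfold KS.pot
    rw [add_zero]
  rw [hpot0] at e1
  rw [e1]
  have e2 : ∫ y in (K.e i).target, g ((K.e i).symm y) * dens (K.pot i f) (K.ρ i) y =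
      ∫ y, G4_ext K i g y * dens (K.pot i f) (K.ρ i) y := by
    rw [← integral_indicator (K.e i).open_target.measurableSet]
    congr 1
    funext y
    by_cases hy : y ∈ (K.e i).target
    · rw [Set.indicator_of_mem hy, G4_ext_on K i g y hy]
    · rw [Set.indicator_of_notMem hy]
      unfold G4_ext
      rw [Set.indicator_of_notMem hy, zero_mul]
  rw [e2]
  have hpotf : ContDiffOn ℝ ∞ (K.pot i f) (K.e i).target := (K.ρ_smooth i).add (hf.1 i)
  exact (hB7 (K.e i).target (G4_ext K i g) (K.ρ i) (K.pot i f) (K.e i).open_target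
    (G4_ext_smooth K i g hgs hg) (G4_ext_compact K i g hg)
    ((G4_ext_tsup K i g hg).trans (G4_cbal_sub K i)) (K.ρ_smooth i) hpotf).symm

/-- the area measure in a curve chart -/
lemma G4_area (K : KSD X) (μ : Measure X) (hμ : K.IsArea μ) (i : Fin K.n)
    (hi : ∀ y ∈ (K.e i).target, K.S ((K.e i).symm y) = ‖y.2‖ ^ 2 * Real.exp (-2 * K.ρ i y))
    (g : X → ℝ) (hgc : Continuous g) (hg : ∀ x, x ∉ (K.e i).source → g x = 0) :
    ∫ x, g x ∂μ = ∫ z : ℂ, G4_ext K.toKS i g (z, 0) * (hA (K.ρ i) (z, 0) / (2 * π)) := by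
  haveI := hμ.1
  set T : Set ℂ := {z : ℂ | ((z, 0) : C2) ∈ (K.e i).target} with hT
  have hcz : Continuous fun z : ℂ => ((z, 0) : C2) := by fun_prop
  have hTo : IsOpen T := (K.e i).open_target.preimage hcz
  have hTm : MeasurableSet T := hTo.measurableSet
  set m : ℂ → X := fun z => (K.e i).symm (z, 0) with hm
  have hmc : ContinuousOn m T := (K.e i).continuousOn_symm.comp hcz.continuousOn fun z hz => hz
  have hdA : ContinuousOn (fun z : ℂ => hA (K.ρ i) (z, 0) / (2 * π)) T := by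
    have h1 : ContinuousOn (hA (K.ρ i)) (K.e i).target :=
      (G4_D2_contOn (K.e i).open_target (K.ρ_smooth i) _ _).add
        (G4_D2_contOn (K.e i).open_target (K.ρ_smooth i) _ _)
    exact (h1.comp hcz.continuousOn fun z hz => hz).div_const _
  set w : ℂ → ENNReal := fun z => ENNReal.ofReal (hA (K.ρ i) (z, 0) / (2 * π)) with hw
  have hwm : AEMeasurable w (volume.restrict T) :=
    (hdA.aemeasurable hTm).ennreal_ofReal
  set μ0 : Measure ℂ := (volume.restrict T).withDensity w with hμ0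
  have hmm : AEMeasurable m (volume.restrict T) := hmc.aemeasurable hTm
  have hmm0 : AEMeasurable m μ0 := hmm.mono_ac (withDensity_absolutelyContinuous _ _)
  have hsm : MeasurableSet (K.e i).source := (K.e i).open_source.measurableSet
  have hmap : μ.restrict (K.e i).source = Measure.map m μ0 := by
    ext A hA
    rw [Measure.restrict_apply hA, Measure.map_apply_of_aemeasurable hmm0 hA,
      hμ.2.2 i hi (A ∩ (K.e i).source) (hA.inter hsm) inter_subset_right, hμ0,
      withDensity_apply' _ _, Measure.restrict_restrict' hTm]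
    congr 2
    ext z
    simp only [mem_setOf_eq, mem_inter_iff, mem_preimage]
    constructor
    · rintro ⟨h1, h2, h3⟩
      exact ⟨h2, h1⟩
    · rintro ⟨h2, h1⟩
      exact ⟨h1, h2, (K.e i).map_target h1⟩
  have e1 : ∫ x, g x ∂μ = ∫ x in (K.e i).source, g x ∂μ := by
    rw [setIntegral_eq_integral_of_forall_compl_eq_zero hg]
  rw [e1, hmap, integral_map hmm0 hgc.aestronglyMeasurable, hμ0,
    integral_withDensity_eq_integral_toReal_smul₀ hwm (Eventually.of_forall fun z => by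
      rw [hw]; exact ENNReal.ofReal_lt_top)]
  rw [← integral_indicator hTm]
  congr 1
  funext z
  by_cases hz : z ∈ T
  · rw [Set.indicator_of_mem hz, G4_ext_on K.toKS i g (z, 0) hz]
    have hpos : 0 ≤ hA (K.ρ i) (z, 0) / (2 * π) := by
      refine div_nonneg ?_ (by positivity)
      exact (K.ρ_pos i (z, 0) hz MAP.e1 (by simp [MAP.e1])).le
    rw [hw]
    simp only [smul_eq_mul]
    rw [ENNReal.toReal_ofReal hpos, mul_comm]
  · rw [Set.indicator_of_notMem hz]
    unfold G4_ext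
    rw [Set.indicator_of_notMem (show ((z, 0) : C2) ∉ (K.e i).target from hz), zero_mul]

lemma G4_null : ∀ᵐ y : C2, 0 < ‖y.2‖ ^ 2 := by
  have h1 : {y : C2 | ¬ 0 < ‖y.2‖ ^ 2} = univ ×ˢ ({0} : Set ℂ) := by
    ext y
    simp
  rw [ae_iff, h1]
  show (Measure.prod volume volume) _ = 0
  rw [Measure.prod_prod]
  simp

/-- convergence for functions with support in a chart -/
lemma G4_local (h1 : S1_stmt) (h2 : S2_stmt) (h9 : S9_stmt) (hB7 : B7_stmt) (hG1 : G1_stmt)
    (hG3 : G3_stmt) (K : KSD X) (μ : Measure X) (hμ : K.IsArea μ) (i : Fin K.n) (g : X → ℝ)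
    (hgs : K.toKS.Smo g) (hgc : Continuous g)
    (hg : ∀ x, g x ≠ 0 → x ∈ (K.e i).source ∧ K.e i x ∈ bal (K.c i) (3 / 4 * K.R i)) :
    Tendsto (fun Λ : ℝ => ∫ x, g x ∂K.toKS.Ms (soft K.S Λ) (fun _ => 0)) atTop
      (𝓝 (∫ x, g x ∂μ)) := by
  have hφ := G4_ext_smooth K.toKS i g hgs hg
  have hφc := G4_ext_compact K.toKS i g hg
  have hφt : tsupport (G4_ext K.toKS i g) ⊆ (K.e i).target :=
    (G4_ext_tsup K.toKS i g hg).trans (G4_cbal_sub K.toKS i)
  have hD := G4_dens_cont (K.e i).open_target hφ hφt (K.ρ_smooth i)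
  have hDt : tsupport (dens (G4_ext K.toKS i g) (K.ρ i)) ⊆ tsupport (G4_ext K.toKS i g) :=
    G4_tsup fun y hy => G4_dens_zero y hy
  have hDc : HasCompactSupport (dens (G4_ext K.toKS i g) (K.ρ i)) :=
    hφc.isCompact.of_isClosed_subset (isClosed_tsupport _) hDt
  have main : ∀ (a : C2 → ℝ), Continuous a → (∀ y, 0 ≤ a y) → (∀ᵐ y : C2, 0 < a y) →
      Integrable (fun y => (1 / 2 * Real.log (a y)) * dens (G4_ext K.toKS i g) (K.ρ i) y) →
      (∀ y ∈ (K.e i).target, K.S ((K.e i).symm y) = a y * Real.exp (-2 * K.ρ i y)) →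
      Tendsto (fun Λ : ℝ => ∫ x, g x ∂K.toKS.Ms (soft K.S Λ) (fun _ => 0)) atTop
        (𝓝 (∫ y, (1 / 2 * Real.log (a y)) * dens (G4_ext K.toKS i g) (K.ρ i) y)) := by
    intro a ha ha0 hapos hint hS
    have hc := G4_conv (K.e i).open_target _ hD hDc (hDt.trans hφt) (K.ρ i)
      (K.ρ_smooth i).continuousOn a ha ha0 hapos hint
    refine hc.congr' ?_
    filter_upwards [eventually_ge_atTop (1 : ℝ)] with Λ hΛ
    rw [G4_chart h1 h2 h9 hB7 K.toKS i (soft K.S Λ) ((hG1 X K).2.2 Λ hΛ) g hgs hgc hg]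
    congr 1
    funext y
    by_cases hy : y ∈ (K.e i).target
    · have e : K.toKS.pot i (soft K.S Λ) y = K.ρ i y + 1 / 2 * Real.log (a y *
          Real.exp (-2 * K.ρ i y) + Real.exp (-2 * Λ)) := by
        unfold KS.pot soft
        rw [hS y hy]
      rw [e]
    · rw [G4_dens_zero y (fun h => hy (hφt h)), mul_zero, mul_zero]
  rcases K.S_loc i with hi | hi
  · have hm := main (fun _ => 1) continuous_const (fun _ => zero_le_one)
      (Eventually.of_forall fun _ => zero_lt_one) (by simp) (fun y hy => by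
        rw [hi y hy, one_mul])
    have e1 : ∫ x, g x ∂μ = 0 := by
      have : g =ᵐ[μ] 0 := by
        have h3 := hμ.2.1
        rw [← compl_compl {x | 0 < K.S x}] at h3
        have h4 : ∀ᵐ x ∂μ, x ∈ {x | 0 < K.S x}ᶜ := by
          rw [ae_iff]
          simpa using hμ.2.1
        filter_upwards [h4] with x hx
        by_contra hc
        have h5 := (hg x hc).1
        have h6 := hi (K.e i x) ((K.e i).map_source h5)
        rw [(K.e i).left_inv h5] at h6
        exact hx (by rw [Set.mem_setOf_eq, h6]; exact Real.exp_pos _)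
      rw [integral_congr_ae this]
      simp
    rw [e1]
    simpa using hm
  · have hlog : ∀ y : C2, 1 / 2 * Real.log (‖y.2‖ ^ 2) = Real.log ‖y.2‖ := by
      intro y
      rw [Real.log_pow]
      push_cast
      ring
    have h3 := hG3 (K.e i).target (G4_ext K.toKS i g) (K.ρ i) (K.e i).open_target hφ hφc hφt
      (K.ρ_smooth i)
    have hm := main (fun y => ‖y.2‖ ^ 2) (by fun_prop) (fun y => by positivity) G4_null
      (by simp only [hlog]; exact h3.1) hi
    simp only [hlog] at hm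
    rw [h3.2, ← G4_area K μ hμ i hi g hgc (fun x hx => by
      by_contra hc
      exact hx (hg x hc).1)] at hm
    exact hm

/-- convergence for smooth functions -/
lemma G4_smooth (h1 : S1_stmt) (h2 : S2_stmt) (h3 : S3_stmt) (h4 : S4_stmt) (h9 : S9_stmt)
    (hB7 : B7_stmt) (hG1 : G1_stmt) (hG3 : G3_stmt) (K : KSD X) (μ : Measure X)
    (hμ : K.IsArea μ) (h : X → ℝ) (hs : K.toKS.Smo h) :
    Tendsto (fun Λ : ℝ => ∫ x, h x ∂K.toKS.Ms (soft K.S Λ) (fun _ => 0)) atTop
      (𝓝 (∫ x, h x ∂μ)) := by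
  haveI := hμ.1
  obtain ⟨χ, hχs, _, hχ1, hχt⟩ := h4 X K.toKS
  have h0 : (fun _ => (0 : ℝ)) ∈ K.toKS.PS := (h9 X K.toKS).1 0
  have hgs : ∀ i, K.toKS.Smo (fun x => χ i x * h x) := fun i =>
    ((h3 X K.toKS).2.1 _ _ (hχs i) hs).2
  have hgc : ∀ i, Continuous (fun x => χ i x * h x) := fun i =>
    (h3 X K.toKS).2.2.2.1 _ (hgs i)
  have hsum : ∀ ν : Measure X, IsFiniteMeasure ν →
      ∫ x, h x ∂ν = ∑ i, ∫ x, χ i x * h x ∂ν := by
    intro ν hν
    rw [← integral_finset_sum _ fun i _ => D1_int ν _ (hgc i)]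
    congr 1
    funext x
    rw [← Finset.sum_mul, hχ1, one_mul]
  rw [hsum μ hμ.1]
  refine Tendsto.congr' ?_ (tendsto_finset_sum Finset.univ fun i _ =>
    G4_local h1 h2 h9 hB7 hG1 hG3 K μ hμ i (fun x => χ i x * h x) (hgs i) (hgc i)
      (fun x hx => hχt i x (left_ne_zero_of_mul hx)))
  filter_upwards [eventually_ge_atTop (1 : ℝ)] with Λ hΛ
  exact (hsum _ ((h9 X K.toKS).2.2.2.1 _ ((hG1 X K).2.2 Λ hΛ) _ h0).1).symm

end measure

theorem G4 (h1 : S1_stmt) (h2 : S2_stmt) (h3 : S3_stmt) (h4 : S4_stmt) (h6 : S6_stmt)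
    (h9 : S9_stmt) (h10 : S10_stmt) (hB7 : B7_stmt) (hG1 : G1_stmt) (hG3 : G3_stmt) :
    G4_stmt := by
  intro X _ _ _ _ _ _ K μ hμ h hh
  haveI := hμ.1
  have h0 : (fun _ => (0 : ℝ)) ∈ K.toKS.PS := (h9 X K.toKS).1 0
  set V : ℝ := (K.toKS.Ms (fun _ => 0) (fun _ => 0)).real univ with hV
  have hV0 : 0 ≤ V := measureReal_nonneg
  set W : ℝ := μ.real univ with hW
  have hW0 : 0 ≤ W := measureReal_nonneg
  rw [Metric.tendsto_nhds]
  intro δ hδ
  obtain ⟨h', hs, hc⟩ := h6 X K.toKS h hh (δ / (3 * (V + W + 1))) (by positivity)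
  have hs' : Continuous h' := (h3 X K.toKS).2.2.2.1 h' hs
  have ht := Metric.tendsto_nhds.mp (G4_smooth h1 h2 h3 h4 h9 hB7 hG1 hG3 K μ hμ h' hs) (δ / 3)
    (by positivity)
  filter_upwards [ht, eventually_ge_atTop (1 : ℝ)] with Λ hΛ hΛ1
  have hsoft := (hG1 X K).2.2 Λ hΛ1
  haveI := ((h9 X K.toKS).2.2.2.1 _ hsoft _ h0).1
  have b1 := D1_close (K.toKS.Ms (soft K.S Λ) (fun _ => 0)) h h' hh hs' _ hc
  have b2 := D1_close μ h h' hh hs' _ hc
  rw [h10 X K.toKS _ hsoft _ h0] at b1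
  have c1 : δ / (3 * (V + W + 1)) * V ≤ δ / 3 := by
    rw [div_mul_eq_mul_div, div_le_div_iff₀ (by positivity) (by norm_num)]
    nlinarith
  have c2 : δ / (3 * (V + W + 1)) * W ≤ δ / 3 := by
    rw [div_mul_eq_mul_div, div_le_div_iff₀ (by positivity) (by norm_num)]
    nlinarith
  rw [Real.dist_eq, abs_lt] at *
  rw [abs_le] at b1 b2
  constructor <;> linarith [b1.1, b1.2, b2.1, b2.2, hΛ.1, hΛ.2]

end

end MAP
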